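import Mathlib

/-! Nielsen generation for pairs generating the free group of rank two, up to conjugation. -/

set_option autoImplicit false

namespace Pool.MP_0e28f3_gt

open FreeGroup

namespace Nielsen

/-- a contiguous sublist of a reduced word is reduced -/
theorem red_sub {γ : Type*} {L₁ L₂ : List (γ × Bool)} (h : FreeGroup.IsReduced L₂)
    (h' : L₁ <:+: L₂) : FreeGroup.IsReduced L₁ := by
  obtain ⟨s, t, rfl⟩ := h'
  have h1 : List.IsChain _ (s ++ L₁) := List.IsChain.left_of_append h
  exact h1.right_of_append

section CP

variable {β : Type} [DecidableEq β]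

/-- length of the longest common prefix -/
def cp : List β → List β → ℕ
  | a :: l, b :: m => if a = b then cp l m + 1 else 0
  | _, _ => 0

theorem cp_nil_left (m : List β) : cp [] m = 0 := by cases m <;> rfl

theorem cp_nil_right (l : List β) : cp l [] = 0 := by cases l <;> rfl

theorem cp_cons (a b : β) (l m : List β) :
    cp (a :: l) (b :: m) = if a = b then cp l m + 1 else 0 := rfl

theorem cp_comm (l : List β) : ∀ m, cp l m = cp m l := by
  induction l with
  | nil => intro m; rw [cp_nil_left, cp_nil_right]
  | cons a l ih =>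
    intro m
    cases m with
    | nil => rw [cp_nil_left, cp_nil_right]
    | cons b m =>
      rw [cp_cons, cp_cons]
      by_cases h : a = b
      · rw [if_pos h, if_pos h.symm, ih]
      · rw [if_neg h, if_neg (Ne.symm h)]

theorem cp_le_left (l : List β) : ∀ m, cp l m ≤ l.length := by
  induction l with
  | nil => intro m; rw [cp_nil_left]; exact Nat.zero_le _
  | cons a l ih =>
    intro m
    cases m with
    | nil => rw [cp_nil_right]; exact Nat.zero_le _
    | cons b m =>
      rw [cp_cons, List.length_cons]
      split_ifs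
      · have := ih m
        omega
      · omega

theorem cp_ultra (l : List β) : ∀ m k, min (cp l m) (cp m k) ≤ cp l k := by
  induction l with
  | nil => intro m k; rw [cp_nil_left]; simp
  | cons a l ih =>
    intro m k
    cases m with
    | nil => rw [cp_nil_right]; simp
    | cons b m =>
      cases k with
      | nil => rw [cp_nil_right (b :: m)]; simp
      | cons d k =>
        rw [cp_cons, cp_cons, cp_cons]
        by_cases h1 : a = b
        · by_cases h2 : b = d
          · rw [if_pos h1, if_pos h2, if_pos (h1.trans h2)]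
            have := ih m k
            omega
          · rw [if_neg h2]
            simp
        · rw [if_neg h1]
          simp

theorem cp_take (l : List β) : ∀ k, k ≤ l.length → cp (l.take k) l = k := by
  induction l with
  | nil => intro k hk; simp at hk; subst hk; rfl
  | cons a l ih =>
    intro k hk
    cases k with
    | zero => rfl
    | succ k =>
      rw [List.take_succ_cons, cp_cons, if_pos rfl, ih k (by simpa using hk)]

end CP

variable {α : Type} [DecidableEq α]

theorem norm_mk (L : List (α × Bool)) : (FreeGroup.mk L).norm = (reduce L).length := by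
  unfold FreeGroup.norm
  rw [toWord_mk]

theorem isReduced_invRev {L : List (α × Bool)} (h : IsReduced L) : IsReduced (invRev L) := by
  rw [isReduced_iff_reduce_eq, reduce_invRev, h.reduce_eq]

theorem cp_red (U : List (α × Bool)) : ∀ V : List (α × Bool), IsReduced U → IsReduced V →
    ((FreeGroup.mk U)⁻¹ * FreeGroup.mk V).norm + 2 * cp U V = U.length + V.length := by
  induction U with
  | nil =>
    intro V _ hV
    rw [cp_nil_left]
    have : (FreeGroup.mk ([] : List (α × Bool)))⁻¹ * FreeGroup.mk V = FreeGroup.mk V := by
      rw [← FreeGroup.one_eq_mk, inv_one, one_mul]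
    rw [this, norm_mk, hV.reduce_eq]
    simp
  | cons a U ih =>
    intro V hU hV
    have hU' : IsReduced U := red_sub hU (List.suffix_cons a U).isInfix
    cases V with
    | nil =>
      rw [cp_nil_right, ← FreeGroup.one_eq_mk, mul_one, norm_inv_eq, norm_mk, hU.reduce_eq]
      simp
    | cons b V =>
      have hV' : IsReduced V := red_sub hV (List.suffix_cons b V).isInfix
      by_cases hab : a = b
      · subst hab
        have e : ∀ W : List (α × Bool), FreeGroup.mk (a :: W) = FreeGroup.mk [a] * FreeGroup.mk W := by
          intro W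
          rw [FreeGroup.mul_mk]
          rfl
        have e2 : (FreeGroup.mk (a :: U))⁻¹ * FreeGroup.mk (a :: V)
            = (FreeGroup.mk U)⁻¹ * FreeGroup.mk V := by
          rw [e U, e V]
          group
        rw [e2, cp_cons, if_pos rfl]
        have := ih V hU' hV'
        simp only [List.length_cons]
        omega
      · rw [cp_cons, if_neg hab, FreeGroup.inv_mk, FreeGroup.mul_mk, norm_mk]
        have hred : IsReduced (invRev (a :: U) ++ b :: V) := by
          unfold FreeGroup.IsReduced
          rw [List.isChain_append]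
          refine ⟨isReduced_invRev hU, hV, ?_⟩
          intro x hx y hy
          have h1 : invRev (a :: U) = invRev U ++ [(a.1, !a.2)] := by
            simp [invRev]
          rw [h1] at hx
          simp at hx hy
          subst hx
          subst hy
          simp only
          intro h2
          by_contra h3
          apply hab
          apply Prod.ext h2
          cases ha : a.2 <;> cases hb : b.2 <;> simp_all
        rw [hred.reduce_eq]
        simp

/-- Gromov product in the free group -/
def B (u v : FreeGroup α) : ℕ := cp u.toWord v.toWord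

theorem B1 (u v : FreeGroup α) : (u⁻¹ * v).norm + 2 * B u v = u.norm + v.norm := by
  have := cp_red u.toWord v.toWord isReduced_toWord isReduced_toWord
  rwa [mk_toWord, mk_toWord] at this

theorem B_comm (u v : FreeGroup α) : B u v = B v u := cp_comm _ _

theorem B_ultra (u v w : FreeGroup α) : min (B u v) (B v w) ≤ B u w := cp_ultra _ _ _

theorem B_le_left (u v : FreeGroup α) : B u v ≤ u.norm := cp_le_left _ _

theorem B_le_right (u v : FreeGroup α) : B u v ≤ v.norm := by
  rw [B_comm]
  exact B_le_left _ _

theorem exists_prefix (v : FreeGroup α) (k : ℕ) (hk : k ≤ v.norm) :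
    ∃ p : FreeGroup α, p.norm = k ∧ B p v = k := by
  refine ⟨FreeGroup.mk (v.toWord.take k), ?_, ?_⟩
  · have hred : IsReduced (v.toWord.take k) :=
      red_sub isReduced_toWord (List.take_prefix _ _).isInfix
    rw [norm_mk, hred.reduce_eq, List.length_take]
    exact min_eq_left hk
  · have hred : IsReduced (v.toWord.take k) :=
      red_sub isReduced_toWord (List.take_prefix _ _).isInfix
    unfold B
    rw [toWord_mk, hred.reduce_eq]
    exact cp_take _ _ hk

theorem norm_sq (u : FreeGroup α) (hu : u ≠ 1) : u.norm < (u * u).norm := by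
  have h1 := reduceCyclically.reduce_flatten_replicate_succ
    (isReduced_toWord (x := u)) 1
  have h0 := reduceCyclically.conj_conjugator_reduceCyclically u.toWord
  have h2 : (u * u).norm = (reduce (u.toWord ++ u.toWord)).length := by
    unfold FreeGroup.norm
    rw [toWord_mul]
  have h3 : (List.replicate (1 + 1) u.toWord).flatten = u.toWord ++ u.toWord := by
    simp [List.replicate]
  rw [h3] at h1
  rw [h2, h1]
  have h4 : u.norm = u.toWord.length := rfl
  rw [h4]
  have h5 := congrArg List.length h0
  simp only [List.length_append, invRev_length] at h5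
  have h6 : reduceCyclically u.toWord ≠ [] := by
    intro h7
    rw [h7] at h0
    apply hu
    have h8 := congrArg FreeGroup.mk h0
    rw [List.append_nil, ← FreeGroup.mul_mk, ← FreeGroup.inv_mk, mul_inv_cancel, mk_toWord] at h8
    exact h8.symm
  have h7 : 0 < (reduceCyclically u.toWord).length := List.length_pos_iff.2 h6
  simp only [List.length_append, invRev_length, List.replicate, List.flatten_cons, List.flatten_nil,
    List.append_nil]
  omega

/-- flip a letter -/
def fl (x : α × Bool) : α × Bool := (x.1, !x.2)

/-- evaluation of letters -/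
def ev {β G : Type} [Group G] (f : β → G) (x : β × Bool) : G := cond x.2 (f x.1) (f x.1)⁻¹

theorem ev_fl {β G : Type} [Group G] (f : β → G) (x : β × Bool) :
    ev f (x.1, !x.2) = (ev f x)⁻¹ := by
  obtain ⟨i, b⟩ := x
  cases b <;> simp [ev]

theorem eq_flip {β : Type} {x z : β × Bool} (h1 : x.1 = z.1) (h2 : ¬ x.2 = z.2) :
    z = (x.1, !x.2) := by
  obtain ⟨i, b⟩ := x
  obtain ⟨j, d⟩ := z
  simp only at h1 h2
  subst h1
  cases b <;> cases d <;> simp_all

/-- products of reduced words in a Nielsen reduced system are long -/
theorem long_products {β : Type} [DecidableEq β] (f : β → FreeGroup α)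
    (N0 : ∀ x : β × Bool, 1 ≤ (ev f x).norm)
    (N1 : ∀ x y : β × Bool, (x.1 = y.1 → x.2 = y.2) → 2 * B (ev f x)⁻¹ (ev f y) ≤ (ev f x).norm)
    (N2 : ∀ x y z : β × Bool, (x.1 = y.1 → x.2 = y.2) → (y.1 = z.1 → y.2 = z.2) →
      B (ev f x)⁻¹ (ev f y) + B (ev f y)⁻¹ (ev f z) < (ev f y).norm)
    (L : List (β × Bool)) : ∀ y : β × Bool, FreeGroup.IsReduced (L ++ [y]) →
      ∀ z : β × Bool, (y.1 = z.1 → y.2 = z.2) →
        B (((L ++ [y]).map (ev f)).prod)⁻¹ (ev f z) = B (ev f y)⁻¹ (ev f z) ∧
        L.length + 1 + B (ev f y)⁻¹ (ev f z) ≤ (((L ++ [y]).map (ev f)).prod).norm := by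
  induction L using List.reverseRecOn with
  | nil =>
    intro y _ z hz
    have h0 := N0 y
    have h1 := N1 y z hz
    simp only [List.nil_append, List.map_cons, List.map_nil, List.prod_cons, List.prod_nil, mul_one,
      List.length_nil]
    exact ⟨trivial, by omega⟩
  | append_singleton L x ih =>
    intro y hred z hz
    have hred' : FreeGroup.IsReduced (L ++ [x]) :=
      red_sub hred (List.prefix_append (L ++ [x]) [y]).isInfix
    have hxy : x.1 = y.1 → x.2 = y.2 := by
      have h1 : FreeGroup.IsReduced ([x, y]) := by
        refine red_sub hred ⟨L, [], ?_⟩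
        simp
      exact (isReduced_cons_cons.1 h1).1
    obtain ⟨i1, i2⟩ := ih x hred' y hxy
    set X : FreeGroup α := ((L ++ [x]).map (ev f)).prod with hX
    have hprod : ((L ++ [x] ++ [y]).map (ev f)).prod = X * ev f y := by
      rw [List.map_append, List.prod_append, hX]
      simp
    rw [hprod]
    have b1 := B1 X⁻¹ (ev f y)
    rw [inv_inv, norm_inv_eq] at b1
    have b2 := B1 (X * ev f y)⁻¹ (ev f y)⁻¹
    rw [inv_inv, mul_inv_cancel_right, norm_inv_eq, norm_inv_eq] at b2
    have n2 := N2 x y z hxy hz
    have u1 := B_ultra (X * ev f y)⁻¹ (ev f y)⁻¹ (ev f z)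
    have u2 := B_ultra (ev f y)⁻¹ (X * ev f y)⁻¹ (ev f z)
    rw [B_comm (ev f y)⁻¹ (X * ev f y)⁻¹] at u2
    rw [List.length_append, List.length_singleton]
    have l1 : B (X * ev f y)⁻¹ (ev f z) = B (ev f y)⁻¹ (ev f z) := by
      rw [i1] at b1
      have h3 : B (ev f y)⁻¹ (ev f z) < B (X * ev f y)⁻¹ (ev f y)⁻¹ := by omega
      apply le_antisymm
      · by_contra hcon
        push Not at hcon
        have : B (ev f y)⁻¹ (ev f z) < min (B (X * ev f y)⁻¹ (ev f y)⁻¹) (B (X * ev f y)⁻¹ (ev f z)) :=
          lt_min h3 hcon
        omega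
      · have : min (B (X * ev f y)⁻¹ (ev f y)⁻¹) (B (ev f y)⁻¹ (ev f z)) = B (ev f y)⁻¹ (ev f z) :=
          min_eq_right h3.le
        omega
    refine ⟨l1, ?_⟩
    rw [i1] at b1
    omega

end Nielsen

open Nielsen in
/-- Nielsen induction for pairs generating the free group of rank two. -/
theorem nielsen_induction (P : FreeGroup (Fin 2) → FreeGroup (Fin 2) → Prop)
    (h0 : P (of 0) (of 1))
    (hswap : ∀ g h, P g h → P h g)
    (hinv : ∀ g h, P g h → P g h⁻¹)
    (hmul : ∀ g h, P g h → P g (g * h))
    (hconj : ∀ c g h, P g h → P (c * g * c⁻¹) (c * h * c⁻¹))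
    (g h : FreeGroup (Fin 2)) (hgen : Subgroup.closure {g, h} = ⊤) : P g h := by
  -- generating pairs
  let Gen : FreeGroup (Fin 2) → FreeGroup (Fin 2) → Prop := fun u v =>
    Subgroup.closure ({u, v} : Set (FreeGroup (Fin 2))) = ⊤
  have gen_of : ∀ u v u' v', Gen u v → u ∈ Subgroup.closure ({u', v'} : Set (FreeGroup (Fin 2))) →
      v ∈ Subgroup.closure ({u', v'} : Set (FreeGroup (Fin 2))) → Gen u' v' := by
    intro u v u' v' huv h1 h2
    show Subgroup.closure ({u', v'} : Set (FreeGroup (Fin 2))) = ⊤
    rw [eq_top_iff, ← (show Subgroup.closure ({u, v} : Set (FreeGroup (Fin 2))) = ⊤ from huv),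
      Subgroup.closure_le]
    rintro x (rfl | rfl)
    · exact h1
    · exact h2
  have gen_swap : ∀ u v, Gen u v → Gen v u := by
    intro u v huv
    exact gen_of u v v u huv (Subgroup.subset_closure (by simp))
      (Subgroup.subset_closure (by simp))
  have gen_inv : ∀ u v, Gen u v → Gen u v⁻¹ := by
    intro u v huv
    refine gen_of u v u v⁻¹ huv (Subgroup.subset_closure (by simp)) ?_
    have : v⁻¹ ∈ Subgroup.closure ({u, v⁻¹} : Set (FreeGroup (Fin 2))) :=
      Subgroup.subset_closure (by simp)
    simpa using inv_mem this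
  have gen_mul : ∀ u v, Gen u v → Gen u (u * v) := by
    intro u v huv
    have h1 : u ∈ Subgroup.closure ({u, u * v} : Set (FreeGroup (Fin 2))) :=
      Subgroup.subset_closure (by simp)
    have h2 : u * v ∈ Subgroup.closure ({u, u * v} : Set (FreeGroup (Fin 2))) :=
      Subgroup.subset_closure (by simp)
    refine gen_of u v u (u * v) huv h1 ?_
    have := mul_mem (inv_mem h1) h2
    simpa using this
  have gen_mul' : ∀ u v, Gen u v → Gen (u * v) v := by
    intro u v huv
    have h1 : v ∈ Subgroup.closure ({u * v, v} : Set (FreeGroup (Fin 2))) :=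
      Subgroup.subset_closure (by simp)
    have h2 : u * v ∈ Subgroup.closure ({u * v, v} : Set (FreeGroup (Fin 2))) :=
      Subgroup.subset_closure (by simp)
    refine gen_of u v (u * v) v huv ?_ h1
    have := mul_mem h2 (inv_mem h1)
    simpa using this
  have gen_conj : ∀ c u v, Gen u v → Gen (c * u * c⁻¹) (c * v * c⁻¹) := by
    intro c u v huv
    have h1 : (Subgroup.closure ({u, v} : Set (FreeGroup (Fin 2)))).map
        (MulAut.conj c).toMonoidHom = ⊤ := by
      rw [show Subgroup.closure ({u, v} : Set (FreeGroup (Fin 2))) = ⊤ from huv]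
      exact Subgroup.map_top_of_surjective _ (MulAut.conj c).surjective
    rw [MonoidHom.map_closure] at h1
    have h2 : ((MulAut.conj c).toMonoidHom '' ({u, v} : Set (FreeGroup (Fin 2))))
        = {c * u * c⁻¹, c * v * c⁻¹} := by
      rw [Set.image_pair]
      rfl
    rw [h2] at h1
    exact h1
  -- backward moves
  have pinv : ∀ u v, P u v⁻¹ → P u v := by
    intro u v h
    have := hinv _ _ h
    rwa [inv_inv] at this
  have pinv1 : ∀ u v, P u v → P u⁻¹ v := fun u v h => hswap _ _ (hinv _ _ (hswap _ _ h))
  have pmul : ∀ u v, P u (u * v) → P u v := by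
    intro u v h
    have h1 := hmul _ _ (pinv1 _ _ h)
    rw [inv_mul_cancel_left] at h1
    have h2 := pinv1 _ _ h1
    rwa [inv_inv] at h2
  have pmul' : ∀ u v, P (u * v) v → P u v := by
    intro u v h
    have h1 : P v⁻¹ (v⁻¹ * u⁻¹) := by
      rw [← mul_inv_rev]
      exact pinv1 _ _ (hinv _ _ (hswap _ _ h))
    have h2 := pmul _ _ h1
    have h3 := pinv _ _ h2
    have h4 := pinv1 _ _ h3
    rw [inv_inv] at h4
    exact hswap _ _ h4
  have pconj : ∀ c u v, P (c * u * c⁻¹) (c * v * c⁻¹) → P u v := by
    intro c u v h
    have h1 := hconj c⁻¹ _ _ h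
    have e : ∀ w : FreeGroup (Fin 2), c⁻¹ * (c * w * c⁻¹) * c⁻¹⁻¹ = w := by
      intro w
      group
    rwa [e, e] at h1
  -- non-commutation
  have hnc : ∀ u v, Gen u v → u * v ≠ v * u := by
    intro u v huv hcomm
    have h1 : ∀ x ∈ Subgroup.closure ({u, v} : Set (FreeGroup (Fin 2))),
        ∀ y ∈ Subgroup.closure ({u, v} : Set (FreeGroup (Fin 2))), x * y = y * x := by
      intro x hx y hy
      have h2 : ∀ a ∈ ({u, v} : Set (FreeGroup (Fin 2))), ∀ b ∈ ({u, v} : Set (FreeGroup (Fin 2))),
          a * b = b * a := by
        rintro a (rfl | rfl) b (rfl | rfl)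
        · rfl
        · exact hcomm
        · exact hcomm.symm
        · rfl
      have := (Subgroup.isMulCommutative_closure h2).is_comm.comm ⟨x, hx⟩ ⟨y, hy⟩
      exact congrArg Subtype.val this
    have h3 := h1 (of 0) (by rw [show Subgroup.closure ({u, v} : Set (FreeGroup (Fin 2))) = ⊤ from huv]; trivial)
      (of 1) (by rw [show Subgroup.closure ({u, v} : Set (FreeGroup (Fin 2))) = ⊤ from huv]; trivial)
    revert h3
    decide
  -- strong induction
  have main : ∀ N : ℕ, ∀ u v, Gen u v → u.norm + v.norm = N → P u v := by
    intro N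
    induction N using Nat.strong_induction_on with
    | _ N ih =>
      intro g h hgh hN
      by_contra hP
      let Bad : FreeGroup (Fin 2) → FreeGroup (Fin 2) → Prop := fun u v =>
        Gen u v ∧ u.norm + v.norm = N ∧ ¬ P u v
      have bad_swap : ∀ u v, Bad u v → Bad v u := by
        rintro u v ⟨h1, h2, h3⟩
        exact ⟨gen_swap _ _ h1, by omega, fun h4 => h3 (hswap _ _ h4)⟩
      have bad_inv : ∀ u v, Bad u v → Bad u v⁻¹ := by
        rintro u v ⟨h1, h2, h3⟩
        exact ⟨gen_inv _ _ h1, by rw [norm_inv_eq]; exact h2, fun h4 => h3 (pinv _ _ h4)⟩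
      have bad_inv1 : ∀ u v, Bad u v → Bad u⁻¹ v := fun u v h =>
        bad_swap _ _ (bad_inv _ _ (bad_swap _ _ h))
      let f : Fin 2 → FreeGroup (Fin 2) := ![g, h]
      have hbad : Bad g h := ⟨hgh, hN, hP⟩
      have badf : ∀ x y : Fin 2 × Bool, x.1 ≠ y.1 → Bad (ev f x) (ev f y) := by
        rintro ⟨i, b⟩ ⟨j, d⟩ hij
        have h01 : Bad (f i) (f j) := by
          fin_cases i <;> fin_cases j
          · exact absurd rfl hij
          · exact hbad
          · exact bad_swap _ _ hbad
          · exact absurd rfl hij
        cases b <;> cases d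
        · exact bad_inv _ _ (bad_inv1 _ _ h01)
        · exact bad_inv1 _ _ h01
        · exact bad_inv _ _ h01
        · exact h01
      -- lengths do not drop
      have red : ∀ u v, Bad u v → u.norm ≤ (u * v).norm ∧ v.norm ≤ (u * v).norm := by
        rintro u v ⟨h1, h2, h3⟩
        constructor
        · by_contra hcon
          push Not at hcon
          exact h3 (pmul' _ _ (ih ((u * v).norm + v.norm) (by omega) _ _ (gen_mul' _ _ h1) rfl))
        · by_contra hcon
          push Not at hcon
          exact h3 (pmul _ _ (ih (u.norm + (u * v).norm) (by omega) _ _ (gen_mul _ _ h1) rfl))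
      have ne1 : ∀ u v, Bad u v → u ≠ 1 := by
        rintro u v ⟨h1, -, -⟩ rfl
        exact hnc _ _ h1 (by simp)
      have half : ∀ u v, Bad u v → 2 * B u⁻¹ v ≤ u.norm ∧ 2 * B u⁻¹ v ≤ v.norm := by
        intro u v huv
        have b1 := B1 u⁻¹ v
        rw [inv_inv, norm_inv_eq] at b1
        have := red u v huv
        omega
      have sqlt : ∀ u : FreeGroup (Fin 2), u ≠ 1 → 2 * B u⁻¹ u < u.norm := by
        intro u hu
        have b1 := B1 u⁻¹ u
        rw [inv_inv, norm_inv_eq] at b1
        have := norm_sq u hu
        omega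
      -- the critical case
      have crit : ∀ u v, Bad u v → ∀ k, v.norm = 2 * k → B u⁻¹ v = k → B v⁻¹ u = k → False := by
        intro u v huv k hv hk1 hk2
        have hu2 := (half u v huv).1
        have hvne := ne1 v u (bad_swap _ _ huv)
        have hkpos : 0 < k := by
          rcases Nat.eq_zero_or_pos k with h1 | h1
          · exfalso
            rw [h1] at hv
            exact hvne (norm_eq_zero.1 (by omega))
          · exact h1
        obtain ⟨p, hp1, hp2⟩ := exists_prefix v k (by omega)
        set x := v * u with hx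
        have a1 := B1 v⁻¹ u
        rw [inv_inv, norm_inv_eq, ← hx] at a1
        have hxn : x.norm = u.norm := by omega
        -- B x v = k
        have a2 := B1 x v
        have e2 : x⁻¹ * v = u⁻¹ := by rw [hx]; group
        rw [e2, norm_inv_eq] at a2
        have hxv : B x v = k := by omega
        have a3 := B_ultra p v x
        rw [B_comm v x] at a3
        have a3' := B_le_left p x
        have hpx : B p x = k := by omega
        have a4 := B1 p x
        -- B x⁻¹ u⁻¹
        have a5 := B1 x⁻¹ u⁻¹
        have e5 : x⁻¹⁻¹ * u⁻¹ = v := by rw [hx]; group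
        rw [e5, norm_inv_eq, norm_inv_eq] at a5
        have a6 := B_ultra x⁻¹ u⁻¹ v
        have a7 := B_ultra x⁻¹ v p
        rw [B_comm v p] at a7
        have a7' := B_le_right x⁻¹ p
        have hxp : B x⁻¹ p = k := by omega
        -- B (x⁻¹ p) x⁻¹
        have a8 := B1 (x⁻¹ * p) x⁻¹
        have e8 : (x⁻¹ * p)⁻¹ * x⁻¹ = p⁻¹ := by group
        rw [e8, norm_inv_eq, norm_inv_eq] at a8
        have e9 : (x⁻¹ * p).norm = (p⁻¹ * x).norm := by
          rw [← norm_inv_eq]
          congr 1
          group
        have a10 := B_ultra (x⁻¹ * p) x⁻¹ p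
        have a11 := B1 (x⁻¹ * p) p
        have e11 : (x⁻¹ * p)⁻¹ * p = p⁻¹ * x * p⁻¹⁻¹ := by group
        rw [e11] at a11
        -- the new pair
        have a12 := B1 p v
        have a13 := norm_mul_le (p⁻¹ * v) p⁻¹⁻¹
        rw [inv_inv] at a13
        have hgen' : Gen x v := by
          have h1 := gen_swap _ _ (gen_mul _ _ (gen_swap _ _ huv.1))
          exact h1
        have hgen'' := gen_conj p⁻¹ _ _ hgen'
        have hlt : (p⁻¹ * x * p⁻¹⁻¹).norm + (p⁻¹ * v * p⁻¹⁻¹).norm < N := by
          have h2 : (p⁻¹ * v * p⁻¹⁻¹).norm ≤ (p⁻¹ * v).norm + p.norm := by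
            rw [inv_inv]
            exact a13
          have h3 := huv.2.1
          omega
        have h4 := pconj _ _ _ (ih _ hlt _ _ hgen'' rfl)
        exact huv.2.2 (hswap _ _ (pmul _ _ (hswap _ _ h4)))
      have evne : ∀ x : Fin 2 × Bool, ev f x ≠ 1 := by
        rintro ⟨i, b⟩
        have h1 : (⟨i, b⟩ : Fin 2 × Bool).1 ≠ ((1 - i, b) : Fin 2 × Bool).1 := by
          fin_cases i <;> simp
        exact ne1 _ _ (badf (i, b) (1 - i, b) h1)
      have N0 : ∀ x : Fin 2 × Bool, 1 ≤ (ev f x).norm := by
        intro x
        by_contra hcon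
        exact evne x (norm_eq_zero.1 (by omega))
      have N1 : ∀ x y : Fin 2 × Bool, (x.1 = y.1 → x.2 = y.2) →
          2 * B (ev f x)⁻¹ (ev f y) ≤ (ev f x).norm := by
        intro x y hxy
        by_cases h1 : x.1 = y.1
        · have h2 : x = y := Prod.ext h1 (hxy h1)
          rw [← h2]
          exact (sqlt _ (evne x)).le
        · exact (half _ _ (badf x y h1)).1
      have N1' : ∀ x y : Fin 2 × Bool, (x.1 = y.1 → x.2 = y.2) →
          2 * B (ev f x)⁻¹ (ev f y) ≤ (ev f y).norm := by
        intro x y hxy
        by_cases h1 : x.1 = y.1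
        · have h2 : x = y := Prod.ext h1 (hxy h1)
          rw [← h2]
          exact (sqlt _ (evne x)).le
        · exact (half _ _ (badf x y h1)).2
      have N2 : ∀ x y z : Fin 2 × Bool, (x.1 = y.1 → x.2 = y.2) → (y.1 = z.1 → y.2 = z.2) →
          B (ev f x)⁻¹ (ev f y) + B (ev f y)⁻¹ (ev f z) < (ev f y).norm := by
        intro x y z hxy hyz
        by_contra hcon
        push Not at hcon
        have c1 := N1' x y hxy
        have c2 := N1 y z hyz
        have hxy1 : x.1 ≠ y.1 := by
          intro h1
          have h2 : x = y := Prod.ext h1 (hxy h1)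
          rw [h2] at hcon c1
          have := sqlt _ (evne y)
          omega
        have hyz1 : y.1 ≠ z.1 := by
          intro h1
          have h2 : y = z := Prod.ext h1 (hyz h1)
          rw [← h2] at hcon c2
          have := sqlt _ (evne y)
          omega
        have hxz : x.1 = z.1 := by
          have : ∀ i j k : Fin 2, i ≠ j → j ≠ k → i = k := by decide
          exact this _ _ _ hxy1 hyz1
        by_cases hb : x.2 = z.2
        · have h2 : x = z := Prod.ext hxz hb
          rw [← h2] at hcon c2
          exact crit _ _ (badf x y hxy1) (B (ev f x)⁻¹ (ev f y)) (by omega) rfl (by omega)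
        · have h2 : z = (x.1, !x.2) := eq_flip hxz hb
          have h3 : ev f z = (ev f x)⁻¹ := by rw [h2]; exact ev_fl f x
          rw [h3] at hcon c2
          have h4 := B_ultra (ev f y)⁻¹ (ev f x)⁻¹ (ev f y)
          have := sqlt _ (evne y)
          omega
      -- the generators are letters
      have letter : ∀ a : FreeGroup (Fin 2), a.norm = 1 → ∃ x : Fin 2 × Bool, ev f x = a := by
        intro a ha
        have hsurj : a ∈ (FreeGroup.lift f).range := by
          have h1 : Subgroup.closure ({g, h} : Set (FreeGroup (Fin 2))) ≤ (FreeGroup.lift f).range := by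
            rw [Subgroup.closure_le]
            rintro y (rfl | rfl)
            · exact ⟨of 0, by simp [f]⟩
            · exact ⟨of 1, by simp [f]⟩
          rw [show Subgroup.closure ({g, h} : Set (FreeGroup (Fin 2))) = ⊤ from hgh] at h1
          exact h1 trivial
        obtain ⟨w, hw⟩ := hsurj
        have hw' : (w.toWord.map (ev f)).prod = a := by
          rw [← hw]
          conv_rhs => rw [← mk_toWord (x := w)]
          rw [FreeGroup.lift_mk]
          rfl
        rcases List.eq_nil_or_concat w.toWord with h1 | ⟨L, y, h1⟩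
        · exfalso
          rw [h1] at hw'
          simp only [List.map_nil, List.prod_nil] at hw'
          rw [← hw'] at ha
          simp at ha
        · rw [List.concat_eq_append] at h1
          have hred : FreeGroup.IsReduced (L ++ [y]) := by
            rw [← h1]
            exact isReduced_toWord
          obtain ⟨-, h3⟩ := long_products f N0 N1 N2 L y hred y (fun _ => rfl)
          rw [← h1, hw', ha] at h3
          have h4 : L = [] := List.length_eq_zero_iff.1 (by omega)
          rw [h1, h4] at hw'
          exact ⟨y, by simpa using hw'⟩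
      obtain ⟨x, hx⟩ := letter (of 0) (norm_of 0)
      obtain ⟨y, hy⟩ := letter (of 1) (norm_of 1)
      by_cases hxy : x.1 = y.1
      · by_cases hb : x.2 = y.2
        · have h2 : x = y := Prod.ext hxy hb
          rw [h2, hy] at hx
          revert hx
          decide
        · have h2 : y = (x.1, !x.2) := eq_flip hxy hb
          have h3 : ev f y = (ev f x)⁻¹ := by rw [h2]; exact ev_fl f x
          rw [hx, hy] at h3
          revert h3
          decide
      · have h5 := (badf x y hxy).2.2
        rw [hx, hy] at h5
        exact h5 h0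
  exact main _ g h hgen rfl

end Pool.MP_0e28f3_gt
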