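import Mathlib
import Pool.Agent.Work.MP_0e28f3_gt.Nielsen
set_option autoImplicit false

/-!
Primitive elements of `F_2`, up to conjugation and inversion, are enumerated by two copies of the
binary tree.
-/

namespace Pool.MP_0e28f3_gt

open FreeGroup

/-- the element at the node reached along a path -/
def elt {G : Type*} [Group G] : List Bool → G → G → G
  | [], g, h => g * h
  | false :: p, g, h => elt p g (g * h)
  | true :: p, g, h => elt p (g * h) h

abbrev F2 := FreeGroup (Fin 2)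

/-- Pairs up to simultaneous conjugation, swap and simultaneous inversion. -/
inductive Rel : F2 → F2 → F2 → F2 → Prop
  | refl (g h : F2) : Rel g h g h
  | conj (c g h g' h' : F2) : Rel g h g' h' → Rel (c * g * c⁻¹) (c * h * c⁻¹) g' h'
  | swap (g h g' h' : F2) : Rel g h g' h' → Rel h g g' h'
  | inv (g h g' h' : F2) : Rel g h g' h' → Rel g⁻¹ h⁻¹ g' h'

theorem Rel.trans {g h g' h' g'' h'' : F2} (h1 : Rel g h g' h') (h2 : Rel g' h' g'' h'') :
    Rel g h g'' h'' := by
  induction h1 with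
  | refl => exact h2
  | conj c g h g' h' _ ih => exact Rel.conj c _ _ _ _ (ih h2)
  | swap g h g' h' _ ih => exact Rel.swap _ _ _ _ (ih h2)
  | inv g h g' h' _ ih => exact Rel.inv _ _ _ _ (ih h2)

theorem Rel.flip {g h g' h' : F2} (h1 : Rel g h g' h') : Rel g h⁻¹ g' h'⁻¹ := by
  induction h1 with
  | refl => exact Rel.refl _ _
  | conj c g h g' h' _ ih =>
    have := Rel.conj c _ _ _ _ ih
    have e : (c * h * c⁻¹)⁻¹ = c * h⁻¹ * c⁻¹ := by group
    rw [e]; exact this
  | swap g h g' h' _ ih =>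
    have := Rel.swap _ _ _ _ (Rel.inv _ _ _ _ ih)
    rwa [inv_inv] at this
  | inv g h g' h' _ ih => exact Rel.inv _ _ _ _ ih

theorem Rel.mul {g h g' h' : F2} (h1 : Rel g h g' h') :
    (Rel g (g * h) g' (g' * h') ∧ Rel (g * h) h (g' * h') h') ∨
    (Rel g (g * h) (g' * h') h' ∧ Rel (g * h) h g' (g' * h')) := by
  have key1 : ∀ g h X Y : F2, Rel (g * h) h X Y → Rel h (h * g) X Y := by
    intro g h X Y hr
    have := Rel.conj h _ _ _ _ (Rel.swap _ _ _ _ hr)
    have e1 : h * h * h⁻¹ = h := by group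
    have e2 : h * (g * h) * h⁻¹ = h * g := by group
    rwa [e1, e2] at this
  have key2 : ∀ g h X Y : F2, Rel g (g * h) X Y → Rel (h * g) g X Y := by
    intro g h X Y hr
    have := Rel.conj g⁻¹ _ _ _ _ (Rel.swap _ _ _ _ hr)
    have e1 : g⁻¹ * (g * h) * g⁻¹⁻¹ = h * g := by group
    have e2 : g⁻¹ * g * g⁻¹⁻¹ = g := by group
    rwa [e1, e2] at this
  have key3 : ∀ g h X Y : F2, Rel g (g * h) X Y → Rel g⁻¹ (g⁻¹ * h⁻¹) X Y := by
    intro g h X Y hr
    have := Rel.conj g⁻¹ _ _ _ _ (Rel.inv _ _ _ _ hr)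
    have e1 : g⁻¹ * g⁻¹ * g⁻¹⁻¹ = g⁻¹ := by group
    have e2 : g⁻¹ * (g * h)⁻¹ * g⁻¹⁻¹ = g⁻¹ * h⁻¹ := by group
    rwa [e1, e2] at this
  have key4 : ∀ g h X Y : F2, Rel (g * h) h X Y → Rel (g⁻¹ * h⁻¹) h⁻¹ X Y := by
    intro g h X Y hr
    have := Rel.conj h _ _ _ _ (Rel.inv _ _ _ _ hr)
    have e1 : h * (g * h)⁻¹ * h⁻¹ = g⁻¹ * h⁻¹ := by group
    have e2 : h * h⁻¹ * h⁻¹ = h⁻¹ := by group
    rwa [e1, e2] at this
  induction h1 with
  | refl => left; exact ⟨Rel.refl _ _, Rel.refl _ _⟩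
  | conj c g h g' h' _ ih =>
    have e : (c * g * c⁻¹) * (c * h * c⁻¹) = c * (g * h) * c⁻¹ := by group
    rw [e]
    rcases ih with ⟨i1, i2⟩ | ⟨i1, i2⟩
    · left; exact ⟨Rel.conj c _ _ _ _ i1, Rel.conj c _ _ _ _ i2⟩
    · right; exact ⟨Rel.conj c _ _ _ _ i1, Rel.conj c _ _ _ _ i2⟩
  | swap g h g' h' _ ih =>
    rcases ih with ⟨i1, i2⟩ | ⟨i1, i2⟩
    · right; exact ⟨key1 _ _ _ _ i2, key2 _ _ _ _ i1⟩
    · left; exact ⟨key1 _ _ _ _ i2, key2 _ _ _ _ i1⟩
  | inv g h g' h' _ ih =>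
    rcases ih with ⟨i1, i2⟩ | ⟨i1, i2⟩
    · left; exact ⟨key3 _ _ _ _ i1, key4 _ _ _ _ i2⟩
    · right; exact ⟨key3 _ _ _ _ i1, key4 _ _ _ _ i2⟩

/-- The edges of the two binary trees. -/
inductive Edge : F2 → F2 → Prop
  | root1 : Edge (of 0) (of 1)
  | root2 : Edge (of 0) (of 1)⁻¹
  | L (u v : F2) : Edge u v → Edge u (u * v)
  | R (u v : F2) : Edge u v → Edge (u * v) v

/-- The pairs that come from the trees. -/
def Good (g h : F2) : Prop :=
  ∃ u v : F2, Edge u v ∧
    (Rel g h u v ∨ Rel g h v (u * v)⁻¹ ∨ Rel g h (u * v)⁻¹ u)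

theorem Good.rel {g h g' h' : F2} (hr : Rel g h g' h') (hg : Good g' h') : Good g h := by
  obtain ⟨u, v, he, h1 | h1 | h1⟩ := hg
  · exact ⟨u, v, he, Or.inl (hr.trans h1)⟩
  · exact ⟨u, v, he, Or.inr (Or.inl (hr.trans h1))⟩
  · exact ⟨u, v, he, Or.inr (Or.inr (hr.trans h1))⟩

theorem Good.edge {u v : F2} (he : Edge u v) : Good u v := ⟨u, v, he, Or.inl (Rel.refl _ _)⟩

theorem Good.parent {u v : F2} (he : Edge u v) : Good u v⁻¹ := by
  cases he with
  | root1 => exact Good.edge Edge.root2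
  | root2 => rw [inv_inv]; exact Good.edge Edge.root1
  | L u v he => exact ⟨u, v, he, Or.inr (Or.inr (Rel.swap _ _ _ _ (Rel.refl _ _)))⟩
  | R u v he =>
    refine ⟨_, _, he, Or.inr (Or.inl ?_)⟩
    have := Rel.swap _ _ _ _ (Rel.inv _ _ _ _ (Rel.refl v (u * v)⁻¹))
    rwa [inv_inv] at this

theorem Good.parent' {u v : F2} (he : Edge u v) : Good v u⁻¹ := by
  have h1 := Good.parent he
  have h2 : Rel v u⁻¹ u v⁻¹ := by
    have := Rel.swap _ _ _ _ (Rel.inv _ _ _ _ (Rel.refl u v⁻¹))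
    rwa [inv_inv] at this
  exact Good.rel h2 h1

theorem Good.parent'' {u v : F2} (he : Edge u v) : Good v⁻¹ u := by
  have h1 := Good.parent he
  have h2 : Rel v⁻¹ u u v⁻¹ := Rel.swap _ _ _ _ (Rel.refl _ _)
  exact Good.rel h2 h1

theorem Good.flip {g h : F2} (hg : Good g h) : Good g h⁻¹ := by
  obtain ⟨u, v, he, h1 | h1 | h1⟩ := hg
  · exact Good.rel h1.flip (Good.parent he)
  · have h2 := h1.flip
    rw [inv_inv] at h2
    exact Good.rel (h2.trans (Rel.swap _ _ _ _ (Rel.refl _ _))) (Good.edge (Edge.R u v he))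
  · have h2 := h1.flip
    have h3 : Rel (u * v)⁻¹ u⁻¹ u (u * v) :=
      Rel.inv _ _ _ _ (Rel.swap _ _ _ _ (Rel.refl _ _))
    exact Good.rel (h2.trans h3) (Good.edge (Edge.L u v he))

theorem Good.swap {g h : F2} (hg : Good g h) : Good h g :=
  Good.rel (Rel.swap _ _ _ _ (Rel.refl _ _)) hg

theorem Good.conj {g h : F2} (c : F2) (hg : Good g h) : Good (c * g * c⁻¹) (c * h * c⁻¹) :=
  Good.rel (Rel.conj _ _ _ _ _ (Rel.refl _ _)) hg

theorem Good.mul {g h : F2} (hg : Good g h) : Good g (g * h) := by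
  obtain ⟨u, v, he, h1 | h1 | h1⟩ := hg
  · rcases h1.mul with ⟨h2, _⟩ | ⟨h2, _⟩
    · exact Good.rel h2 (Good.edge (Edge.L u v he))
    · exact Good.rel h2 (Good.edge (Edge.R u v he))
  · have e : v * (u * v)⁻¹ = u⁻¹ := by group
    rcases h1.mul with ⟨h2, _⟩ | ⟨h2, _⟩
    · rw [e] at h2
      exact Good.rel h2 (Good.parent' he)
    · rw [e] at h2
      exact Good.rel (h2.trans (Rel.inv _ _ _ _ (Rel.refl _ _))) (Good.edge (Edge.L u v he))
  · have e : (u * v)⁻¹ * u = v⁻¹ := by group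
    rcases h1.mul with ⟨h2, _⟩ | ⟨h2, _⟩
    · rw [e] at h2
      exact Good.rel (h2.trans (Rel.inv _ _ _ _ (Rel.refl _ _))) (Good.edge (Edge.R u v he))
    · rw [e] at h2
      exact Good.rel h2 (Good.parent'' he)

theorem good_of_gen (g h : F2) (hgen : Subgroup.closure {g, h} = ⊤) : Good g h :=
  nielsen_induction Good (Good.edge Edge.root1) (fun _ _ => Good.swap) (fun _ _ => Good.flip)
    (fun _ _ => Good.mul) (fun c _ _ => Good.conj c) g h hgen

/-- conjugate up to inversion -/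
def CI (w s : F2) : Prop := IsConj w s ∨ IsConj w s⁻¹

theorem CI.refl (w : F2) : CI w w := Or.inl (IsConj.refl _)

theorem isConj_inv {G : Type*} [Group G] {a b : G} (h : IsConj a b) : IsConj a⁻¹ b⁻¹ := by
  rw [isConj_iff] at h ⊢
  obtain ⟨c, hc⟩ := h
  exact ⟨c, by rw [← hc]; group⟩

theorem CI.inv_left {w s : F2} (h : CI w s) : CI w⁻¹ s := by
  rcases h with h | h
  · exact Or.inr (isConj_inv h)
  · have := isConj_inv h
    rw [inv_inv] at this
    exact Or.inl this

theorem CI.inv_right {w s : F2} (h : CI w s) : CI w s⁻¹ := by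
  rcases h with h | h
  · right; rwa [inv_inv]
  · left; exact h

theorem CI.conj_left {w s : F2} (c : F2) (h : CI w s) : CI (c * w * c⁻¹) s := by
  have h1 : IsConj (c * w * c⁻¹) w := by
    apply IsConj.symm
    rw [isConj_iff]; exact ⟨c, rfl⟩
  rcases h with h | h
  · exact Or.inl (h1.trans h)
  · exact Or.inr (h1.trans h)

theorem Rel.ci {g h g' h' : F2} (hr : Rel g h g' h') :
    (CI g g' ∨ CI g h') ∧ (CI h g' ∨ CI h h') := by
  induction hr with
  | refl g h => exact ⟨Or.inl (CI.refl _), Or.inr (CI.refl _)⟩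
  | conj c g h g' h' _ ih =>
    exact ⟨ih.1.imp (CI.conj_left c) (CI.conj_left c), ih.2.imp (CI.conj_left c) (CI.conj_left c)⟩
  | swap g h g' h' _ ih => exact ⟨ih.2, ih.1⟩
  | inv g h g' h' _ ih =>
    exact ⟨ih.1.imp CI.inv_left CI.inv_left, ih.2.imp CI.inv_left CI.inv_left⟩

/-- the standard representatives of the primitive classes -/
def Std (s : F2) : Prop :=
  s = of 0 ∨ s = of 1 ∨ (∃ p : List Bool, s = elt p (of 0) (of 1)) ∨
    (∃ p : List Bool, s = elt p (of 0) (of 1)⁻¹)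

/-- pairs along a path -/
def pr {G : Type*} [Group G] : List Bool → G × G → G × G
  | [], s => s
  | false :: p, s => pr p (s.1, s.1 * s.2)
  | true :: p, s => pr p (s.1 * s.2, s.2)

theorem pr_append_false {G : Type*} [Group G] (p : List Bool) (s : G × G) :
    pr (p ++ [false]) s = ((pr p s).1, (pr p s).1 * (pr p s).2) := by
  induction p generalizing s with
  | nil => rfl
  | cons b p ih => cases b <;> simp [pr, ih]

theorem pr_append_true {G : Type*} [Group G] (p : List Bool) (s : G × G) :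
    pr (p ++ [true]) s = ((pr p s).1 * (pr p s).2, (pr p s).2) := by
  induction p generalizing s with
  | nil => rfl
  | cons b p ih => cases b <;> simp [pr, ih]

theorem elt_eq {G : Type*} [Group G] (p : List Bool) (g h : G) :
    elt p g h = (pr p (g, h)).1 * (pr p (g, h)).2 := by
  induction p generalizing g h with
  | nil => rfl
  | cons b p ih => cases b <;> simp [elt, pr, ih]

theorem edge_pr {u v : F2} (he : Edge u v) :
    (∃ p, (u, v) = pr p (of 0, of 1)) ∨ (∃ p, (u, v) = pr p (of 0, (of 1)⁻¹)) := by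
  induction he with
  | root1 => left; exact ⟨[], rfl⟩
  | root2 => right; exact ⟨[], rfl⟩
  | L u v _ ih =>
    rcases ih with ⟨p, hp⟩ | ⟨p, hp⟩
    · left; exact ⟨p ++ [false], by rw [pr_append_false, ← hp]⟩
    · right; exact ⟨p ++ [false], by rw [pr_append_false, ← hp]⟩
  | R u v _ ih =>
    rcases ih with ⟨p, hp⟩ | ⟨p, hp⟩
    · left; exact ⟨p ++ [true], by rw [pr_append_true, ← hp]⟩
    · right; exact ⟨p ++ [true], by rw [pr_append_true, ← hp]⟩

theorem edge_mul_std {u v : F2} (he : Edge u v) : Std (u * v) := by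
  rcases edge_pr he with ⟨p, hp⟩ | ⟨p, hp⟩
  · right; right; left
    refine ⟨p, ?_⟩
    rw [elt_eq, ← hp]
  · right; right; right
    refine ⟨p, ?_⟩
    rw [elt_eq, ← hp]

theorem edge_std {u v : F2} (he : Edge u v) : (∃ s, Std s ∧ CI u s) ∧ (∃ s, Std s ∧ CI v s) := by
  induction he with
  | root1 => exact ⟨⟨_, Or.inl rfl, CI.refl _⟩, ⟨_, Or.inr (Or.inl rfl), CI.refl _⟩⟩
  | root2 => exact ⟨⟨_, Or.inl rfl, CI.refl _⟩, ⟨_, Or.inr (Or.inl rfl), (CI.refl _).inv_left⟩⟩
  | L u v he ih => exact ⟨ih.1, ⟨_, edge_mul_std he, CI.refl _⟩⟩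
  | R u v he ih => exact ⟨⟨_, edge_mul_std he, CI.refl _⟩, ih.2⟩

/-- primitive elements -/
def Prim (w : F2) : Prop := ∃ φ : F2 ≃* F2, φ (of 0) = w

theorem closure_of_equiv (φ : F2 ≃* F2) : Subgroup.closure {φ (of 0), φ (of 1)} = ⊤ := by
  have h1 : Subgroup.closure (Set.range (of : Fin 2 → F2)) = ⊤ := FreeGroup.closure_range_of _
  have h2 : Set.range (of : Fin 2 → F2) = {of 0, of 1} := by
    ext x
    simp only [Set.mem_range, Fin.exists_fin_two, Set.mem_insert_iff, Set.mem_singleton_iff]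
    constructor
    · rintro (h | h)
      · exact Or.inl h.symm
      · exact Or.inr h.symm
    · rintro (h | h)
      · exact Or.inl h.symm
      · exact Or.inr h.symm
  rw [h2] at h1
  have h3 := congrArg (Subgroup.map φ.toMonoidHom) h1
  rw [MonoidHom.map_closure, Subgroup.map_top_of_surjective _ φ.surjective] at h3
  rw [← h3]
  congr 1
  simp [Set.image_insert_eq]

/-- Classification of the primitive elements of `F_2` up to conjugation and inversion. -/
theorem prim_std {w : F2} (hw : Prim w) : ∃ s, Std s ∧ CI w s := by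
  obtain ⟨φ, rfl⟩ := hw
  obtain ⟨u, v, he, h1⟩ := good_of_gen _ _ (closure_of_equiv φ)
  obtain ⟨⟨s1, hs1, hc1⟩, ⟨s2, hs2, hc2⟩⟩ := edge_std he
  have hc3 : Std (u * v) := edge_mul_std he
  have htrans : ∀ {w t s : F2}, CI w t → CI t s → CI w s := by
    intro w t s ha hb
    rcases ha with ha | ha
    · rcases hb with hb | hb
      · exact Or.inl (ha.trans hb)
      · exact Or.inr (ha.trans hb)
    · rcases hb with hb | hb
      · exact Or.inr (ha.trans (isConj_inv hb))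
      · have := isConj_inv hb
        rw [inv_inv] at this
        exact Or.inl (ha.trans this)
  have hk : ∀ {w : F2}, CI w (u * v)⁻¹ → CI w (u * v) := by
    intro w h
    have := h.inv_right
    rwa [inv_inv] at this
  rcases h1 with h1 | h1 | h1
  · rcases h1.ci.1 with h | h
    · exact ⟨s1, hs1, htrans h hc1⟩
    · exact ⟨s2, hs2, htrans h hc2⟩
  · rcases h1.ci.1 with h | h
    · exact ⟨s2, hs2, htrans h hc2⟩
    · exact ⟨_, hc3, hk h⟩
  · rcases h1.ci.1 with h | h
    · exact ⟨_, hc3, hk h⟩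
    · exact ⟨s1, hs1, htrans h hc1⟩

end Pool.MP_0e28f3_gt
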