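import Mathlib
set_option autoImplicit false

/-!
The binary tree of values ahead of a directed edge, and the abstract induction that bounds the
set of small values.
-/

namespace Pool.MP_0e28f3_gt

/-- The value at the node reached along a path: the state `(x, y; z)` has two flanking values
`x`, `y` and the forward value `z`. -/
def fwd {R : Type*} [CommRing R] : List Bool → R → R → R → R
  | [], _, _, z => z
  | false :: p, x, y, z => fwd p x z (x * z - y)
  | true :: p, x, y, z => fwd p z y (z * y - x)

/-- The sequence of neighbours `Y 0 = y`, `Y 1 = z`, `Y (k+2) = x Y (k+1) - Y k`. -/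
def nb {R : Type*} [CommRing R] (x y z : R) : ℕ → R
  | 0 => y
  | 1 => z
  | (k + 2) => x * nb x y z (k + 1) - nb x y z k

section basic
variable {R : Type*} [CommRing R]

@[simp] theorem nb_zero (x y z : R) : nb x y z 0 = y := rfl
@[simp] theorem nb_one (x y z : R) : nb x y z 1 = z := rfl
theorem nb_add_two (x y z : R) (k : ℕ) :
    nb x y z (k + 2) = x * nb x y z (k + 1) - nb x y z k := rfl

theorem nb_shift (x y z : R) (k : ℕ) : nb x z (x * z - y) k = nb x y z (k + 1) := by
  induction k using Nat.twoStepInduction with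
  | zero => rfl
  | one => rfl
  | more k ih1 ih2 => rw [nb_add_two, ih1, ih2]; rfl

theorem fwd_swap (p : List Bool) (x y z : R) :
    fwd (p.map (fun b => !b)) x y z = fwd p y x z := by
  induction p generalizing x y z with
  | nil => rfl
  | cons b p ih =>
    cases b
    · simp only [List.map_cons, Bool.not_false, fwd]
      rw [ih, mul_comm]
    · simp only [List.map_cons, Bool.not_true, fwd]
      rw [ih, mul_comm]

theorem fwd_replicate (k : ℕ) (p : List Bool) (x y z : R) :
    fwd (List.replicate k false ++ p) x y z = fwd p x (nb x y z k) (nb x y z (k + 1)) := by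
  induction k generalizing y z with
  | zero => rfl
  | succ k ih =>
    rw [List.replicate_succ, List.cons_append]
    simp only [fwd]
    rw [ih, nb_shift, nb_shift]

theorem fwd_map {S : Type*} [CommRing S] (f : R →+* S) (p : List Bool) (x y z : R) :
    f (fwd p x y z) = fwd p (f x) (f y) (f z) := by
  induction p generalizing x y z with
  | nil => rfl
  | cons b p ih => cases b <;> simp [fwd, ih]

theorem nb_map {S : Type*} [CommRing S] (f : R →+* S) (k : ℕ) (x y z : R) :
    f (nb x y z k) = nb (f x) (f y) (f z) k := by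
  induction k using Nat.twoStepInduction with
  | zero => rfl
  | one => rfl
  | more k ih1 ih2 => rw [nb_add_two, nb_add_two, map_sub, map_mul, ih1, ih2]

end basic

/-- every list of booleans is `false^k` or `false^k, true, q`. -/
theorem list_cases (p : List Bool) :
    (∃ k : ℕ, p = List.replicate k false) ∨
    (∃ (k : ℕ) (q : List Bool), p = List.replicate k false ++ true :: q) := by
  induction p with
  | nil => left; exact ⟨0, rfl⟩
  | cons b p ih =>
    cases b
    · rcases ih with ⟨k, rfl⟩ | ⟨k, q, rfl⟩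
      · left; exact ⟨k + 1, by rw [List.replicate_succ]⟩
      · right; exact ⟨k + 1, q, by rw [List.replicate_succ, List.cons_append]⟩
    · right; exact ⟨0, p, rfl⟩

/-- If both flanking values are large and the forward value is at least as large as the backward
value, then all values ahead are large. -/
theorem big_of_big (p : List Bool) (x y z : ℂ) (hx : 2 < ‖x‖) (hy : 2 < ‖y‖)
    (hz : ‖x * y - z‖ ≤ ‖z‖) : 2 < ‖fwd p x y z‖ := by
  have hkey : ‖x‖ * ‖y‖ ≤ 2 * ‖z‖ := by
    have h1 : ‖x * y‖ ≤ ‖x * y - z‖ + ‖z‖ := by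
      calc ‖x * y‖ = ‖(x * y - z) + z‖ := by ring_nf
        _ ≤ _ := norm_add_le _ _
    rw [norm_mul] at h1
    linarith
  have hzx : ‖x‖ < ‖z‖ := by nlinarith [norm_nonneg x, norm_nonneg y]
  have hzy : ‖y‖ < ‖z‖ := by nlinarith [norm_nonneg x, norm_nonneg y]
  induction p generalizing x y z with
  | nil => simp only [fwd]; linarith
  | cons b p ih =>
    cases b
    · simp only [fwd]
      have h2 : ‖x‖ * ‖z‖ - ‖y‖ ≤ ‖x * z - y‖ := by
        have := norm_sub_norm_le (x * z) y
        rwa [norm_mul] at this
      have h3 : ‖z‖ < ‖x * z - y‖ := by nlinarith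
      have h4 : ‖x * z - (x * z - y)‖ ≤ ‖x * z - y‖ := by
        have : x * z - (x * z - y) = y := by ring
        rw [this]; linarith
      have h5 : ‖x‖ * ‖z‖ ≤ 2 * ‖x * z - y‖ := by
        have h1 : ‖x * z‖ ≤ ‖x * z - (x * z - y)‖ + ‖x * z - y‖ := by
          calc ‖x * z‖ = ‖(x * z - (x * z - y)) + (x * z - y)‖ := by ring_nf
            _ ≤ _ := norm_add_le _ _
        rw [norm_mul] at h1
        linarith
      exact ih x z (x * z - y) hx (by linarith) h4 h5 (by linarith) h3
    · simp only [fwd]
      have h2 : ‖z‖ * ‖y‖ - ‖x‖ ≤ ‖z * y - x‖ := by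
        have := norm_sub_norm_le (z * y) x
        rwa [norm_mul] at this
      have h3 : ‖z‖ < ‖z * y - x‖ := by nlinarith
      have h4 : ‖z * y - (z * y - x)‖ ≤ ‖z * y - x‖ := by
        have : z * y - (z * y - x) = x := by ring
        rw [this]; linarith
      have h5 : ‖z‖ * ‖y‖ ≤ 2 * ‖z * y - x‖ := by
        have h1 : ‖z * y‖ ≤ ‖z * y - (z * y - x)‖ + ‖z * y - x‖ := by
          calc ‖z * y‖ = ‖(z * y - (z * y - x)) + (z * y - x)‖ := by ring_nf
            _ ≤ _ := norm_add_le _ _
        rw [norm_mul] at h1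
        linarith
      exact ih z y (z * y - x) (by linarith) hy h4 h5 h3 (by linarith)

section induction
variable {R : Type*} [CommRing R] (π : R →+* ℂ) (size : R → ℝ)

/-- Only finitely many values ahead are small, and these have positive size. -/
def FG (x y z : R) : Prop :=
  {p : List Bool | ‖π (fwd p x y z)‖ ≤ 2}.Finite ∧
    ∀ p : List Bool, ‖π (fwd p x y z)‖ ≤ 2 → 0 < size (fwd p x y z)

theorem FG.swap {x y z : R} (h : FG π size x y z) : FG π size y x z := by
  obtain ⟨h1, h2⟩ := h
  constructor
  · have himg : {p : List Bool | ‖π (fwd p y x z)‖ ≤ 2} ⊆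
        (fun p : List Bool => p.map (fun b => !b)) '' {p : List Bool | ‖π (fwd p x y z)‖ ≤ 2} := by
      intro p hp
      refine ⟨p.map (fun b => !b), ?_, ?_⟩
      · simp only [Set.mem_setOf_eq] at hp ⊢
        rw [fwd_swap]; exact hp
      · simp [List.map_map, Function.comp_def]
    exact (h1.image _).subset himg
  · intro p hp
    have := h2 (p.map (fun b => !b)) (by rw [fwd_swap]; exact hp)
    rwa [fwd_swap] at this

/-- One fan step. -/
theorem fan_step {x y z : R} (hx : ‖π x‖ ≤ 2)
    (hfin : {k : ℕ | ‖π (nb x y z k)‖ ≤ 2}.Finite)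
    (hpos : ∀ k : ℕ, ‖π (nb x y z (k + 1))‖ ≤ 2 → 0 < size (nb x y z (k + 1)))
    (hA : ∀ k : ℕ, ‖π (nb x y z k)‖ ≤ 2 →
      FG π size (nb x y z k) (nb x y z (k + 1)) (nb x y z k * nb x y z (k + 1) - x))
    (hB : ∀ k : ℕ, ‖π (nb x y z (k + 1))‖ ≤ 2 →
      FG π size (nb x y z (k + 1)) (nb x y z k) (nb x y z (k + 1) * nb x y z k - x)) :
    FG π size x y z := by
  -- the side branch at `k`
  have hside : ∀ k : ℕ,
      FG π size (nb x y z (k + 1)) (nb x y z k) (nb x y z (k + 1) * nb x y z k - x) := by
    intro k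
    by_cases h1 : ‖π (nb x y z (k + 1))‖ ≤ 2
    · exact hB k h1
    · by_cases h2 : ‖π (nb x y z k)‖ ≤ 2
      · have := (hA k h2).swap
        rwa [mul_comm] at this
      · push Not at h1 h2
        have hb : ∀ p : List Bool, 2 < ‖π (fwd p (nb x y z (k + 1)) (nb x y z k)
            (nb x y z (k + 1) * nb x y z k - x))‖ := by
          intro p
          rw [fwd_map]
          apply big_of_big _ _ _ _ h1 h2
          rw [map_sub, map_mul]
          have e : π (nb x y z (k + 1)) * π (nb x y z k) -
            (π (nb x y z (k + 1)) * π (nb x y z k) - π x) = π x := by ring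
          rw [e]
          have := norm_sub_norm_le (π (nb x y z (k + 1)) * π (nb x y z k)) (π x)
          rw [norm_mul] at this
          nlinarith
        constructor
        · convert Set.finite_empty
          ext p
          simp only [Set.mem_setOf_eq, Set.mem_empty_iff_false, iff_false, not_le]
          exact hb p
        · intro p hp
          exact absurd hp (not_le.mpr (hb p))
  have hsideE : ∀ k : ℕ, ¬ (‖π (nb x y z (k + 1))‖ ≤ 2) → ¬ (‖π (nb x y z k)‖ ≤ 2) →
      {p : List Bool | ‖π (fwd p (nb x y z (k + 1)) (nb x y z k)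
            (nb x y z (k + 1) * nb x y z k - x))‖ ≤ 2} = ∅ := by
    intro k h1 h2
    push Not at h1 h2
    ext p
    simp only [Set.mem_setOf_eq, Set.mem_empty_iff_false, iff_false, not_le]
    rw [fwd_map]
    apply big_of_big _ _ _ _ h1 h2
    rw [map_sub, map_mul]
    have e : π (nb x y z (k + 1)) * π (nb x y z k) -
      (π (nb x y z (k + 1)) * π (nb x y z k) - π x) = π x := by ring
    rw [e]
    have := norm_sub_norm_le (π (nb x y z (k + 1)) * π (nb x y z k)) (π x)
    rw [norm_mul] at this
    nlinarith
  have hval1 : ∀ k : ℕ, fwd (List.replicate k false) x y z = nb x y z (k + 1) := by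
    intro k
    have := fwd_replicate k [] x y z
    rw [List.append_nil] at this
    rw [this]; rfl
  have hval2 : ∀ (k : ℕ) (q : List Bool), fwd (List.replicate k false ++ true :: q) x y z =
      fwd q (nb x y z (k + 1)) (nb x y z k) (nb x y z (k + 1) * nb x y z k - x) := by
    intro k q
    rw [fwd_replicate]; rfl
  constructor
  · -- finiteness
    obtain ⟨K, hK⟩ := hfin.bddAbove
    have hK' : ∀ k : ℕ, ‖π (nb x y z k)‖ ≤ 2 → k ≤ K := fun k hk => hK hk
    have hsub : {p : List Bool | ‖π (fwd p x y z)‖ ≤ 2} ⊆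
        (⋃ k ∈ Finset.range (K + 1), {List.replicate k false}) ∪
        (⋃ k ∈ Finset.range (K + 1), (fun q => List.replicate k false ++ true :: q) ''
          {p : List Bool | ‖π (fwd p (nb x y z (k + 1)) (nb x y z k)
            (nb x y z (k + 1) * nb x y z k - x))‖ ≤ 2}) := by
      intro p hp
      simp only [Set.mem_setOf_eq] at hp
      rcases list_cases p with ⟨k, rfl⟩ | ⟨k, q, rfl⟩
      · left
        rw [hval1] at hp
        have := hK' _ hp
        simp only [Set.mem_iUnion, Set.mem_singleton_iff]
        exact ⟨k, by simp; omega, rfl⟩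
      · right
        rw [hval2] at hp
        simp only [Set.mem_iUnion]
        have hk : k ≤ K := by
          by_contra hcon
          have h1 : ¬ (‖π (nb x y z (k + 1))‖ ≤ 2) := fun h => by have := hK' _ h; omega
          have h2 : ¬ (‖π (nb x y z k)‖ ≤ 2) := fun h => by have := hK' _ h; omega
          have h3 := hsideE k h1 h2
          have h4 : q ∈ {p : List Bool | ‖π (fwd p (nb x y z (k + 1)) (nb x y z k)
            (nb x y z (k + 1) * nb x y z k - x))‖ ≤ 2} := hp
          rw [h3] at h4
          exact h4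
        exact ⟨k, by simp; omega, q, hp, rfl⟩
    refine Set.Finite.subset (Set.Finite.union ?_ ?_) hsub
    · exact Set.Finite.biUnion (Finset.finite_toSet _) (fun k _ => Set.finite_singleton _)
    · exact Set.Finite.biUnion (Finset.finite_toSet _) (fun k _ => ((hside k).1).image _)
  · intro p hp
    rcases list_cases p with ⟨k, rfl⟩ | ⟨k, q, rfl⟩
    · rw [hval1] at hp ⊢
      exact hpos k hp
    · rw [hval2] at hp ⊢
      exact (hside k).2 q hp

variable (Inv : R → R → R → Prop) (C : ℝ)

/-- `Inv` is closed under the symmetries of triples and the flip. -/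
structure InvClosed : Prop where
  S : ∀ x y z, Inv x y z → Inv y x z
  T : ∀ x y z, Inv x y z → Inv x z y
  F : ∀ x y z, Inv x y z → Inv x y (x * y - z)

variable {Inv}

theorem InvClosed.nb (h : InvClosed Inv) {x y z : R} (hi : Inv x y z) (k : ℕ) :
    Inv x (nb x y z k) (nb x y z (k + 1)) := by
  induction k with
  | zero => exact hi
  | succ k ih =>
    rw [nb_add_two]
    exact h.F _ _ _ (h.T _ _ _ ih)

/-- child state on the right side -/
theorem InvClosed.childA (h : InvClosed Inv) {x y z : R} (hi : Inv x y z) :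
    Inv y z (y * z - x) := by
  apply h.F
  exact h.T _ _ _ (h.S _ _ _ hi)

theorem InvClosed.childB (h : InvClosed Inv) {x y z : R} (hi : Inv x y z) :
    Inv z y (z * y - x) := by
  apply h.F
  exact h.S _ _ _ (h.T _ _ _ (h.S _ _ _ hi))

/-- The analytic hypotheses of the induction. -/
structure IndHyp (π : R →+* ℂ) (size : R → ℝ) (Inv : R → R → R → Prop) (C : ℝ) : Prop where
  cl : InvClosed Inv
  h3 : ∀ x y z, Inv x y z → ‖π x‖ ≤ 2 → ‖π y‖ ≤ 2 → ‖π z‖ ≤ 2 → False
  hP : ∀ x y z, Inv x y z → ‖π x‖ ≤ 2 → ‖π (x * y - z)‖ ≤ 2 → ∀ k : ℕ,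
    ‖π (nb x y z (k + 1))‖ ≤ 2 → 4 * size x ≤ size (x * y - z) + size (nb x y z (k + 1))
  hfin : ∀ x y z, Inv x y z → ‖π x‖ ≤ 2 → 0 < size x → {k : ℕ | ‖π (nb x y z k)‖ ≤ 2}.Finite
  hbd : ∀ x y z, Inv x y z → ‖π x‖ ≤ 2 → size x ≤ C

variable {π size C}

theorem fin_induction (H : IndHyp π size Inv C) (N : ℕ) :
    ∀ x y z : R, Inv x y z → ‖π x‖ ≤ 2 → ‖π (x * y - z)‖ ≤ 2 → size (x * y - z) ≤ size x →
      0 < size x → C < 3 ^ N * size x → FG π size x y z := by
  induction N with
  | zero =>
    intro x y z hi hx _ _ _ hC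
    have := H.hbd x y z hi hx
    simp only [pow_zero, one_mul] at hC
    linarith
  | succ N ih =>
    intro x y z hi hx hpar hsz hpos hC
    have hbig0 : ¬ (‖π y‖ ≤ 2) := by
      intro hy
      exact H.h3 x y (x * y - z) (H.cl.F _ _ _ hi) hx hy hpar
    -- growth
    have hgrow : ∀ k : ℕ, ‖π (nb x y z (k + 1))‖ ≤ 2 → 3 * size x ≤ size (nb x y z (k + 1)) := by
      intro k hk
      have := H.hP x y z hi hx hpar k hk
      linarith
    have hCk : ∀ k : ℕ, ‖π (nb x y z (k + 1))‖ ≤ 2 → C < 3 ^ N * size (nb x y z (k + 1)) := by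
      intro k hk
      have h1 := hgrow k hk
      have h2 : (0 : ℝ) < 3 ^ N := by positivity
      calc C < 3 ^ (N + 1) * size x := hC
        _ = 3 ^ N * (3 * size x) := by ring
        _ ≤ _ := by gcongr
    apply fan_step π size hx (H.hfin x y z hi hx hpos)
    · intro k hk
      have := hgrow k hk
      linarith
    · intro k hk
      cases k with
      | zero => exact absurd hk hbig0
      | succ k =>
        have hg := hgrow k hk
        apply ih _ _ _ (H.cl.childA (H.cl.nb hi (k + 1))) hk
        · have e : nb x y z (k + 1) * nb x y z (k + 1 + 1) -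
            (nb x y z (k + 1) * nb x y z (k + 1 + 1) - x) = x := by ring
          rw [e]; exact hx
        · have e : nb x y z (k + 1) * nb x y z (k + 1 + 1) -
            (nb x y z (k + 1) * nb x y z (k + 1 + 1) - x) = x := by ring
          rw [e]; linarith
        · linarith
        · exact hCk k hk
    · intro k hk
      have hg := hgrow k hk
      apply ih _ _ _ (H.cl.childB (H.cl.nb hi k)) hk
      · have e : nb x y z (k + 1) * nb x y z k -
          (nb x y z (k + 1) * nb x y z k - x) = x := by ring
        rw [e]; exact hx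
      · have e : nb x y z (k + 1) * nb x y z k -
          (nb x y z (k + 1) * nb x y z k - x) = x := by ring
        rw [e]; linarith
      · linarith
      · exact hCk k hk

/-- The root of the tree of small values. -/
theorem root_fin (H : IndHyp π size Inv C) {x y z : R} (hi : Inv x y z) (hx : ‖π x‖ ≤ 2)
    (hfin : {k : ℕ | ‖π (nb x y z k)‖ ≤ 2}.Finite)
    (hsz : ∀ k : ℕ, ‖π (nb x y z k)‖ ≤ 2 → size x ≤ size (nb x y z k) ∧ 0 < size (nb x y z k)) :
    FG π size x y z := by
  have harch : ∀ t : ℝ, 0 < t → ∃ N : ℕ, C < 3 ^ N * t := by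
    intro t ht
    obtain ⟨N, hN⟩ := pow_unbounded_of_one_lt (C / t) (by norm_num : (1 : ℝ) < 3)
    exact ⟨N, by rwa [div_lt_iff₀ ht] at hN⟩
  apply fan_step π size hx hfin
  · intro k hk; exact (hsz (k + 1) hk).2
  · intro k hk
    obtain ⟨h1, h2⟩ := hsz k hk
    obtain ⟨N, hN⟩ := harch _ h2
    apply fin_induction H N _ _ _ (H.cl.childA (H.cl.nb hi k)) hk _ _ h2 hN
    · have e : nb x y z k * nb x y z (k + 1) -
        (nb x y z k * nb x y z (k + 1) - x) = x := by ring
      rw [e]; exact hx
    · have e : nb x y z k * nb x y z (k + 1) -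
        (nb x y z k * nb x y z (k + 1) - x) = x := by ring
      rw [e]; exact h1
  · intro k hk
    obtain ⟨h1, h2⟩ := hsz (k + 1) hk
    obtain ⟨N, hN⟩ := harch _ h2
    apply fin_induction H N _ _ _ (H.cl.childB (H.cl.nb hi k)) hk _ _ h2 hN
    · have e : nb x y z (k + 1) * nb x y z k -
        (nb x y z (k + 1) * nb x y z k - x) = x := by ring
      rw [e]; exact hx
    · have e : nb x y z (k + 1) * nb x y z k -
        (nb x y z (k + 1) * nb x y z k - x) = x := by ring
      rw [e]; exact h1

end induction

end Pool.MP_0e28f3_gt
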