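import Mathlib
import Pool.Agent.Work.MP_0e28f3_gt.Tree
set_option autoImplicit false

/-!
The trigonometric parametrisation of the neighbours of a region, and the inequality between
imaginary parts.  The level is `μ = 1000004`, i.e. `κ = 1000002`.
-/

namespace Pool.MP_0e28f3_gt

open Complex

theorem exists_angle (c s : ℂ) (h : c ^ 2 + s ^ 2 = 1) : ∃ φ : ℂ, cos φ = c ∧ sin φ = s := by
  have h1 : (c + s * I) * (c - s * I) = 1 := by
    linear_combination h - s ^ 2 * I_sq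
  have hne : c + s * I ≠ 0 := by
    intro h0; rw [h0, zero_mul] at h1; exact zero_ne_one h1
  have e1 : exp (-I * log (c + s * I) * I) = c + s * I := by
    have : -I * log (c + s * I) * I = log (c + s * I) := by
      linear_combination (-log (c + s * I)) * I_sq
    rw [this, exp_log hne]
  have e2 : exp (-(-I * log (c + s * I)) * I) = c - s * I := by
    have : -(-I * log (c + s * I)) * I = -(-I * log (c + s * I) * I) := by ring
    rw [this, exp_neg, e1]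
    exact inv_eq_of_mul_eq_one_right h1
  refine ⟨-I * log (c + s * I), ?_, ?_⟩
  · rw [cos, e1, e2]; ring
  · rw [sin, e1, e2]
    linear_combination (-s) * I_sq

theorem re_cos' (t : ℂ) : (cos t).re = Real.cos t.re * Real.cosh t.im := by
  conv_lhs => rw [← re_add_im t]
  rw [cos_add_mul_I]
  simp [← ofReal_cos, ← ofReal_cosh, ← ofReal_sin, ← ofReal_sinh]

theorem im_cos' (t : ℂ) : (cos t).im = -(Real.sin t.re * Real.sinh t.im) := by
  conv_lhs => rw [← re_add_im t]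
  rw [cos_add_mul_I]
  simp [← ofReal_cos, ← ofReal_cosh, ← ofReal_sin, ← ofReal_sinh]

theorem re_sin' (t : ℂ) : (sin t).re = Real.sin t.re * Real.cosh t.im := by
  conv_lhs => rw [← re_add_im t]
  rw [sin_add_mul_I]
  simp [← ofReal_cos, ← ofReal_cosh, ← ofReal_sin, ← ofReal_sinh]

theorem im_sin' (t : ℂ) : (sin t).im = Real.cos t.re * Real.sinh t.im := by
  conv_lhs => rw [← re_add_im t]
  rw [sin_add_mul_I]
  simp [← ofReal_cos, ← ofReal_cosh, ← ofReal_sin, ← ofReal_sinh]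

theorem le_of_sq_le {a b : ℝ} (ha : 0 ≤ a) (hb : 0 ≤ b) (h : a ^ 2 ≤ b ^ 2) : a ≤ b :=
  (pow_le_pow_iff_left₀ ha hb two_ne_zero).mp h

/-- basic real inequalities for an angle `θ` with `|2 cos θ| ≤ 2`. -/
theorem angle_bounds (θ : ℂ) (hx : ‖2 * cos θ‖ ≤ 2) :
    Real.sinh θ.im ^ 2 ≤ 1 ∧ |(cos θ).re| ≤ 1 ∧ |(cos θ).im| ≤ |Real.sinh θ.im| ∧
    |(sin θ).re| ≤ 3 / 2 ∧ |(sin θ).im| ≤ |Real.sinh θ.im| ∧ ‖sin θ‖ ^ 2 ≤ 2 := by
  have h1 : ‖cos θ‖ ≤ 1 := by
    rw [norm_mul] at hx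
    simp only [norm_ofNat] at hx
    linarith
  have h2 : ‖cos θ‖ ^ 2 = (cos θ).re ^ 2 + (cos θ).im ^ 2 := by
    rw [← normSq_eq_norm_sq, normSq_apply]; ring
  have h3 : ‖sin θ‖ ^ 2 = (sin θ).re ^ 2 + (sin θ).im ^ 2 := by
    rw [← normSq_eq_norm_sq, normSq_apply]; ring
  have h4 : ‖cos θ‖ ^ 2 ≤ 1 := by nlinarith [norm_nonneg (cos θ)]
  have hc := Real.cosh_sq θ.im
  have hs := Real.sin_sq_add_cos_sq θ.re
  rw [re_cos', im_cos'] at h2
  rw [re_sin', im_sin'] at h3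
  set a := Real.cos θ.re
  set b := Real.sin θ.re
  set s := Real.sinh θ.im
  set c := Real.cosh θ.im
  have h5 : ‖cos θ‖ ^ 2 = a ^ 2 + s ^ 2 := by
    rw [h2, mul_pow, hc]; linear_combination s ^ 2 * hs
  have h6 : ‖sin θ‖ ^ 2 = b ^ 2 + s ^ 2 := by
    rw [h3, mul_pow, hc]; linear_combination s ^ 2 * hs
  have ha : |a| ≤ 1 := Real.abs_cos_le_one _
  have hb : |b| ≤ 1 := Real.abs_sin_le_one _
  have hs1 : s ^ 2 ≤ 1 := by nlinarith [sq_nonneg a]
  have hsin2 : ‖sin θ‖ ^ 2 ≤ 2 := by nlinarith [sq_nonneg a, sq_nonneg b]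
  refine ⟨hs1, ?_, ?_, ?_, ?_, hsin2⟩
  · exact (abs_re_le_norm _).trans h1
  · rw [im_cos', abs_neg, abs_mul]
    exact mul_le_of_le_one_left (abs_nonneg _) hb
  · refine (abs_re_le_norm _).trans ?_
    nlinarith [norm_nonneg (sin θ)]
  · rw [im_sin', abs_mul]
    exact mul_le_of_le_one_left (abs_nonneg _) ha

/-- The key estimate. -/
theorem key_estimate (θ ψ y R : ℂ) (hx : ‖2 * cos θ‖ ≤ 2)
    (hR : R ^ 2 = 1000004 - (2 * cos θ) ^ 2) (hy : ‖y‖ ≤ 2) (h : cos ψ * R = y * sin θ) :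
    |ψ.im| ≤ (2 * |y.im| + 3 * |Real.sinh θ.im|) / 900 ∧ |ψ.im| ≤ 1 := by
  obtain ⟨hs1, hcr, hci, hsr, hsi, hsn⟩ := angle_bounds θ hx
  set B := |Real.sinh θ.im| with hB
  have hB0 : 0 ≤ B := abs_nonneg _
  have hB1 : B ≤ 1 := by
    rw [← sq_abs] at hs1
    nlinarith
  -- R
  have hRre : R.re ^ 2 - R.im ^ 2 = 1000004 - 4 * ((cos θ).re ^ 2 - (cos θ).im ^ 2) := by
    have := congrArg Complex.re hR
    simp only [pow_two, mul_re, sub_re, mul_im] at this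
    norm_num at this
    nlinarith [this]
  have hRim : 2 * (R.re * R.im) = - 8 * ((cos θ).re * (cos θ).im) := by
    have := congrArg Complex.im hR
    simp only [pow_two, mul_re, sub_im, mul_im] at this
    norm_num at this
    nlinarith [this]
  have hc1 : (cos θ).re ^ 2 ≤ 1 := by
    rw [← sq_abs]; nlinarith [abs_nonneg (cos θ).re]
  have hRre2 : 1000000 ≤ R.re ^ 2 := by nlinarith [sq_nonneg R.im, sq_nonneg (cos θ).im]
  have hRre1 : 1000 ≤ |R.re| := by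
    rw [← sq_abs] at hRre2
    exact le_of_sq_le (by norm_num) (abs_nonneg _) (by rw [show (1000 : ℝ) ^ 2 = 1000000 by norm_num]; exact hRre2)
  have hRim1 : 1000 * |R.im| ≤ 4 * B := by
    have h1 : |R.re| * |R.im| ≤ 4 * B := by
      have h2 : |R.re * R.im| = 4 * (|(cos θ).re| * |(cos θ).im|) := by
        have : R.re * R.im = - 4 * ((cos θ).re * (cos θ).im) := by linarith
        rw [this, abs_mul, abs_mul]; norm_num
      rw [abs_mul] at h2
      rw [h2]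
      have : |(cos θ).re| * |(cos θ).im| ≤ 1 * B := by gcongr
      linarith
    nlinarith only [abs_nonneg R.im, hRre1, h1]
  -- W = y sin θ
  have hW : ‖cos ψ‖ * ‖R‖ = ‖y‖ * ‖sin θ‖ := by rw [← norm_mul, h, norm_mul]
  have hRn : 1000 ≤ ‖R‖ := hRre1.trans (abs_re_le_norm R)
  have hWn : ‖cos ψ‖ ^ 2 ≤ 8 / 1000000 := by
    have h1 : (‖cos ψ‖ * ‖R‖) ^ 2 ≤ 8 := by
      rw [hW, mul_pow]
      have : ‖y‖ ^ 2 ≤ 4 := by nlinarith only [norm_nonneg y, hy]
      nlinarith only [sq_nonneg ‖y‖, sq_nonneg ‖sin θ‖, this, hsn]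
    have h2 : 1000000 ≤ ‖R‖ ^ 2 := by nlinarith only [hRn]
    rw [mul_pow] at h1
    nlinarith only [sq_nonneg ‖cos ψ‖, h1, h2]
  -- real and imaginary parts of cos ψ
  have hpn : ‖cos ψ‖ ^ 2 = (cos ψ).re ^ 2 + (cos ψ).im ^ 2 := by
    rw [← normSq_eq_norm_sq, normSq_apply]; ring
  have hu : |(cos ψ).re| ≤ 1 := by
    have : ‖cos ψ‖ ≤ 1 := le_of_sq_le (norm_nonneg _) zero_le_one (by linarith)
    exact (abs_re_le_norm _).trans this
  have him : (cos ψ).im * R.re = (y * sin θ).im - (cos ψ).re * R.im := by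
    have := congrArg Complex.im h
    rw [mul_im] at this
    linarith
  have hWim : |(y * sin θ).im| ≤ 2 * B + 3 / 2 * |y.im| := by
    rw [mul_im]
    calc |y.re * (sin θ).im + y.im * (sin θ).re| ≤ |y.re * (sin θ).im| + |y.im * (sin θ).re| :=
          abs_add_le _ _
      _ = |y.re| * |(sin θ).im| + |y.im| * |(sin θ).re| := by rw [abs_mul, abs_mul]
      _ ≤ 2 * B + |y.im| * (3 / 2) := by
          gcongr
          exact (abs_re_le_norm _).trans hy
      _ = _ := by ring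
  have hv : 1000 * |(cos ψ).im| ≤ 2 * B + 3 / 2 * |y.im| + |R.im| := by
    have h1 : |(cos ψ).im| * |R.re| ≤ 2 * B + 3 / 2 * |y.im| + |R.im| := by
      rw [← abs_mul, him]
      calc |(y * sin θ).im - (cos ψ).re * R.im| ≤ |(y * sin θ).im| + |(cos ψ).re * R.im| :=
            abs_sub _ _
        _ ≤ (2 * B + 3 / 2 * |y.im|) + 1 * |R.im| := by
            rw [abs_mul]; gcongr
        _ = _ := by ring
    nlinarith only [abs_nonneg (cos ψ).im, hRre1, h1]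
  -- now the angle ψ
  have hcn : ‖cos ψ‖ ^ 2 = Real.cos ψ.re ^ 2 + Real.sinh ψ.im ^ 2 := by
    rw [hpn, re_cos', im_cos']
    have := Real.cosh_sq ψ.im
    rw [mul_pow, this]
    linear_combination Real.sinh ψ.im ^ 2 * Real.sin_sq_add_cos_sq ψ.re
  have hsa : 98 / 100 ≤ |Real.sin ψ.re| := by
    have h1 : (98 / 100) ^ 2 ≤ Real.sin ψ.re ^ 2 := by
      have h2 := Real.sin_sq_add_cos_sq ψ.re
      have h3 := sq_nonneg (Real.sinh ψ.im)
      norm_num
      linarith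
    rw [← sq_abs (Real.sin ψ.re)] at h1
    exact le_of_sq_le (by norm_num) (abs_nonneg _) h1
  have hself : |ψ.im| ≤ |Real.sinh ψ.im| := by
    rcases le_total 0 ψ.im with h0 | h0
    · rw [abs_of_nonneg h0, abs_of_nonneg (Real.sinh_nonneg_iff.mpr h0)]
      exact Real.self_le_sinh_iff.mpr h0
    · rw [abs_of_nonpos h0, abs_of_nonpos (Real.sinh_nonpos_iff.mpr h0)]
      have := Real.sinh_le_self_iff.mpr h0
      linarith
  have hvv : |(cos ψ).im| = |Real.sin ψ.re| * |Real.sinh ψ.im| := by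
    rw [im_cos', abs_neg, abs_mul]
  constructor
  · have h1 : 98 / 100 * |ψ.im| ≤ |(cos ψ).im| := by
      rw [hvv]; gcongr
    have h2 : 0 ≤ |y.im| := abs_nonneg _
    rw [le_div_iff₀ (by norm_num)]
    linarith
  · have h1 : Real.sinh ψ.im ^ 2 ≤ 1 := by
      have := sq_nonneg (Real.cos ψ.re)
      linarith
    have h2 : |Real.sinh ψ.im| ≤ 1 := abs_le_one_iff_mul_self_le_one.mpr (by rwa [← pow_two])
    exact hself.trans h2

theorem exists_sqrt (a : ℂ) : ∃ R : ℂ, R ^ 2 = a := IsAlgClosed.exists_pow_nat_eq a (by norm_num)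

theorem exists_theta (x : ℂ) : ∃ θ : ℂ, 2 * cos θ = x := by
  obtain ⟨θ, hθ⟩ := cos_surjective (x / 2)
  exact ⟨θ, by rw [hθ]; ring⟩

/-- parametrisation of the neighbours. -/
theorem param (x y z θ R μ : ℂ) (hμ : x ^ 2 + y ^ 2 + z ^ 2 - x * y * z = μ)
    (hx : 2 * cos θ = x) (hR : R ^ 2 = μ - x ^ 2) (hR0 : R ≠ 0) :
    ∃ φ : ℂ, cos (φ - θ) * R = (x * y - z) * sin θ ∧
      (∀ k : ℕ, cos (φ + k * θ) * R = nb x y z k * sin θ) ∧
      sin φ * R = y * cos θ - z := by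
  have hsc := sin_sq_add_cos_sq θ
  obtain ⟨φ, hc, hs⟩ := exists_angle (y * sin θ / R) ((y * cos θ - z) / R) (by
    rw [div_pow, div_pow, ← add_div, div_eq_one_iff_eq (pow_ne_zero 2 hR0), hR]
    subst hx
    linear_combination hμ + y ^ 2 * hsc)
  have hc' : cos φ * R = y * sin θ := by rw [hc, div_mul_cancel₀ _ hR0]
  have hs' : sin φ * R = y * cos θ - z := by rw [hs, div_mul_cancel₀ _ hR0]
  refine ⟨φ, ?_, ?_, hs'⟩
  · rw [cos_sub]
    subst hx
    linear_combination cos θ * hc' + sin θ * hs'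
  · intro k
    induction k using Nat.twoStepInduction with
    | zero => simp [hc']
    | one =>
      rw [nb_one, Nat.cast_one, one_mul, cos_add]
      linear_combination cos θ * hc' - sin θ * hs'
    | more k ih1 ih2 =>
      have e1 : φ + ((k + 2 : ℕ) : ℂ) * θ = (φ + ((k + 1 : ℕ) : ℂ) * θ) + θ := by
        push_cast; ring
      have e2 : φ + ((k : ℕ) : ℂ) * θ = (φ + ((k + 1 : ℕ) : ℂ) * θ) - θ := by
        push_cast; ring
      rw [e2, cos_sub] at ih1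
      rw [nb_add_two, e1, cos_add]
      subst hx
      linear_combination (2 * cos θ) * ih2 - ih1

/-- `|sinh t| ≤ 2 |t|` when `|sinh t| ≤ 1`. -/
theorem sinh_le_two (t : ℝ) (h : Real.sinh t ^ 2 ≤ 1) : |Real.sinh t| ≤ 2 * |t| := by
  have hself : |t| ≤ |Real.sinh t| := by
    rcases le_total 0 t with h0 | h0
    · rw [abs_of_nonneg h0, abs_of_nonneg (Real.sinh_nonneg_iff.mpr h0)]
      exact Real.self_le_sinh_iff.mpr h0
    · rw [abs_of_nonpos h0, abs_of_nonpos (Real.sinh_nonpos_iff.mpr h0)]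
      have := Real.sinh_le_self_iff.mpr h0
      linarith
  have h1 : |t| ≤ 1 := by
    rw [← sq_abs] at h
    nlinarith [abs_nonneg (Real.sinh t)]
  have e1 := Real.abs_exp_sub_one_le h1
  have e2 := Real.abs_exp_sub_one_le (x := -t) (by rwa [abs_neg])
  rw [abs_neg] at e2
  rw [Real.sinh_eq]
  have : (Real.exp t - Real.exp (-t)) / 2 = ((Real.exp t - 1) - (Real.exp (-t) - 1)) / 2 := by ring
  rw [this, abs_div, abs_two]
  have := abs_sub (Real.exp t - 1) (Real.exp (-t) - 1)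
  linarith

theorem R_ne_zero {x R : ℂ} (hx : ‖x‖ ≤ 2) (hR : R ^ 2 = 1000004 - x ^ 2) : R ≠ 0 := by
  rintro rfl
  have h1 : x ^ 2 = 1000004 := by linear_combination hR
  have h2 : ‖x ^ 2‖ = 1000004 := by rw [h1]; norm_num
  rw [norm_pow] at h2
  nlinarith [norm_nonneg x]

/-- inequality (P) for imaginary parts -/
theorem P_im (x y z : ℂ) (hμ : x ^ 2 + y ^ 2 + z ^ 2 - x * y * z = 1000004) (hx : ‖x‖ ≤ 2)
    (hpar : ‖x * y - z‖ ≤ 2) (k : ℕ) (hk : ‖nb x y z (k + 1)‖ ≤ 2) :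
    4 * |x.im| ≤ |(x * y - z).im| + |(nb x y z (k + 1)).im| := by
  obtain ⟨θ, hθ⟩ := exists_theta x
  obtain ⟨R, hR⟩ := exists_sqrt (1000004 - x ^ 2)
  have hR0 := R_ne_zero hx hR
  obtain ⟨φ, h1, h2, _⟩ := param x y z θ R 1000004 hμ hθ hR hR0
  have h3 := h2 (k + 1)
  subst hθ
  obtain ⟨hs1, hcr, hci, hsr, hsi, hsn⟩ := angle_bounds θ hx
  obtain ⟨k1, -⟩ := key_estimate θ (φ - θ) _ R hx hR hpar h1
  obtain ⟨k2, -⟩ := key_estimate θ (φ + ((k + 1 : ℕ) : ℂ) * θ) _ R hx hR hk h3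
  have e1 : (φ + ((k + 1 : ℕ) : ℂ) * θ).im - (φ - θ).im = (k + 2) * θ.im := by
    have : ((k + 1 : ℕ) : ℂ) = (((k : ℝ) + 1 : ℝ) : ℂ) := by push_cast; ring
    rw [this]
    simp only [add_im, sub_im, mul_im, ofReal_re, ofReal_im]
    ring
  have e2 : |θ.im| ≤ |(k + 2 : ℝ) * θ.im| := by
    rw [abs_mul]
    have : (1 : ℝ) ≤ |(k + 2 : ℝ)| := by
      rw [abs_of_nonneg (by positivity)]
      have : (0 : ℝ) ≤ k := Nat.cast_nonneg k
      linarith
    nlinarith [abs_nonneg θ.im]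
  have e3 : |(φ + ((k + 1 : ℕ) : ℂ) * θ).im - (φ - θ).im| ≤
    |(φ + ((k + 1 : ℕ) : ℂ) * θ).im| + |(φ - θ).im| := abs_sub _ _
  rw [e1] at e3
  have e4 := sinh_le_two θ.im hs1
  have e5 : |(2 * cos θ).im| ≤ 2 * |Real.sinh θ.im| := by
    have : (2 * cos θ).im = 2 * (cos θ).im := by simp
    rw [this, abs_mul, abs_two]
    linarith
  set B := |Real.sinh θ.im|
  rw [le_div_iff₀ (by norm_num)] at k1 k2
  have hB : 0 ≤ B := abs_nonneg _
  nlinarith

/-- finiteness of the set of small neighbours -/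
theorem fin_nb (x y z : ℂ) (hμ : x ^ 2 + y ^ 2 + z ^ 2 - x * y * z = 1000004) (hx : ‖x‖ ≤ 2)
    (hx' : ¬ (x.im = 0 ∧ |x.re| ≤ 2)) : {k : ℕ | ‖nb x y z k‖ ≤ 2}.Finite := by
  obtain ⟨θ, hθ⟩ := exists_theta x
  obtain ⟨R, hR⟩ := exists_sqrt (1000004 - x ^ 2)
  have hR0 := R_ne_zero hx hR
  obtain ⟨φ, h1, h2, _⟩ := param x y z θ R 1000004 hμ hθ hR hR0
  subst hθ
  have ht : θ.im ≠ 0 := by
    intro h0
    apply hx'
    have e1 : (cos θ).im = 0 := by rw [im_cos', h0]; simp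
    have e2 : (cos θ).re = Real.cos θ.re := by rw [re_cos', h0]; simp
    constructor
    · simp [e1]
    · have : (2 * cos θ).re = 2 * Real.cos θ.re := by simp [e2]
      rw [this, abs_mul, abs_two]
      have := Real.abs_cos_le_one θ.re
      linarith
  have hb : ∀ k ∈ {k : ℕ | ‖nb (2 * cos θ) y z k‖ ≤ 2}, (k : ℝ) ≤ (1 + |φ.im|) / |θ.im| := by
    intro k hk
    obtain ⟨-, k2⟩ := key_estimate θ (φ + (k : ℂ) * θ) _ R hx hR hk (h2 k)
    have e1 : (φ + (k : ℂ) * θ).im = φ.im + k * θ.im := by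
      have : (k : ℂ) = ((k : ℝ) : ℂ) := by push_cast; ring
      rw [this]
      simp only [add_im, mul_im, ofReal_re, ofReal_im]
      ring
    rw [e1] at k2
    rw [le_div_iff₀ (abs_pos.mpr ht)]
    have e2 : (k : ℝ) * |θ.im| = |(k : ℝ) * θ.im| := by
      rw [abs_mul, abs_of_nonneg (Nat.cast_nonneg k : (0 : ℝ) ≤ k)]
    rw [e2]
    calc |(k : ℝ) * θ.im| = |(φ.im + k * θ.im) - φ.im| := by ring_nf
      _ ≤ |φ.im + k * θ.im| + |φ.im| := abs_sub _ _
      _ ≤ _ := by linarith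
  apply Set.Finite.subset (Set.finite_Iic (⌈(1 + |φ.im|) / |θ.im|⌉₊))
  intro k hk
  have := hb k hk
  simp only [Set.mem_Iic]
  have h3 := Nat.le_ceil ((1 + |φ.im|) / |θ.im|)
  exact_mod_cast this.trans h3

/-- the level-set relation, as an invariant for complex values -/
def InvC (x y z : ℂ) : Prop := x ^ 2 + y ^ 2 + z ^ 2 - x * y * z = 1000004

theorem no_three {x y z : ℂ} (h : x ^ 2 + y ^ 2 + z ^ 2 - x * y * z = 1000004)
    (hx : ‖x‖ ≤ 2) (hy : ‖y‖ ≤ 2) (hz : ‖z‖ ≤ 2) : False := by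
  have h1 : ‖x ^ 2 + y ^ 2 + z ^ 2 - x * y * z‖ = 1000004 := by rw [h]; norm_num
  have h2 : ‖x ^ 2 + y ^ 2 + z ^ 2 - x * y * z‖ ≤ ‖x‖ ^ 2 + ‖y‖ ^ 2 + ‖z‖ ^ 2 + ‖x‖ * ‖y‖ * ‖z‖ := by
    calc ‖x ^ 2 + y ^ 2 + z ^ 2 - x * y * z‖ ≤ ‖x ^ 2 + y ^ 2 + z ^ 2‖ + ‖x * y * z‖ :=
          norm_sub_le _ _
      _ ≤ (‖x ^ 2‖ + ‖y ^ 2‖ + ‖z ^ 2‖) + ‖x * y * z‖ := by
          gcongr; exact norm_add₃_le
      _ = _ := by simp only [norm_pow, norm_mul]
  have h3 : ‖x‖ * ‖y‖ * ‖z‖ ≤ 2 * 2 * 2 := by gcongr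
  have h4 : ‖x‖ ^ 2 ≤ 2 ^ 2 := by gcongr
  have h5 : ‖y‖ ^ 2 ≤ 2 ^ 2 := by gcongr
  have h6 : ‖z‖ ^ 2 ≤ 2 ^ 2 := by gcongr
  linarith

theorem indHyp_im : IndHyp (RingHom.id ℂ) (fun x : ℂ => |x.im|) InvC 2 where
  cl := {
    S := fun x y z h => by simp only [InvC] at h ⊢; linear_combination h
    T := fun x y z h => by simp only [InvC] at h ⊢; linear_combination h
    F := fun x y z h => by simp only [InvC] at h ⊢; linear_combination h }
  h3 := fun x y z h hx hy hz => no_three h hx hy hz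
  hP := fun x y z h hx hp k hk => P_im x y z h hx hp k hk
  hfin := fun x y z h hx hp => fin_nb x y z h hx (fun hh => by
    simp only [hh.1, abs_zero] at hp; exact lt_irrefl _ hp)
  hbd := fun x y z h hx => (abs_im_le_norm x).trans hx

/-- The Bowditch property of the slice: if the imaginary part of `w` is a half-odd multiple of
the imaginary part `ε` of `θ`, small neighbours have large imaginary part. -/
theorem half_step (θ R y : ℂ) (hx : ‖2 * cos θ‖ ≤ 2) (hε : θ.im ≠ 0)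
    (hR : R ^ 2 = 1000004 - (2 * cos θ) ^ 2) (hy : ‖y‖ ≤ 2) (ψ : ℂ)
    (h : cos ψ * R = y * sin θ) (hψ : |θ.im| / 2 ≤ |ψ.im|) :
    |(2 * cos θ).im| ≤ |y.im| ∧ 0 < |y.im| := by
  obtain ⟨hs1, hcr, hci, hsr, hsi, hsn⟩ := angle_bounds θ hx
  obtain ⟨k1, -⟩ := key_estimate θ ψ y R hx hR hy h
  have e4 := sinh_le_two θ.im hs1
  have e5 : |(2 * cos θ).im| ≤ 2 * |Real.sinh θ.im| := by
    have : (2 * cos θ).im = 2 * (cos θ).im := by simp
    rw [this, abs_mul, abs_two]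
    linarith
  have hpos : 0 < |θ.im| := abs_pos.mpr hε
  rw [le_div_iff₀ (by norm_num)] at k1
  constructor <;> nlinarith

end Pool.MP_0e28f3_gt
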