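import Mathlib
import Pool.Agent.Work.MP_0e28f3_gt.Ineq
set_option autoImplicit false

/-!
The inequality for derivatives, and the bound for the derivative of a function that omits
the interval `[-2, 2]`.
-/

namespace Pool.MP_0e28f3_gt

open Complex Metric

/-- Functions on a disc omitting `[-2,2]` have bounded derivative where they are small. -/
theorem bloch (f : ℂ → ℂ) (w0 : ℂ) (r : ℝ) (hr : 0 < r) (hf : Differentiable ℂ f)
    (hav : ∀ w ∈ ball w0 r, ¬ ((f w).im = 0 ∧ |(f w).re| ≤ 2)) (h0 : ‖f w0‖ ≤ 2) :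
    ‖deriv f w0‖ ≤ 8 / r := by
  have hw0 : w0 ∈ ball w0 r := mem_ball_self hr
  have hne : ∀ w ∈ ball w0 r, f w + 2 ≠ 0 := by
    intro w hw h
    apply hav w hw
    have : f w = -2 := by linear_combination h
    rw [this]; norm_num
  set g : ℂ → ℂ := fun w => (f w - 2) / (f w + 2) with hg
  have hgf : ∀ w ∈ ball w0 r, f w * (1 - g w) = 2 * (1 + g w) := by
    intro w hw
    have h1 := hne w hw
    have h2 : g w * (f w + 2) = f w - 2 := by rw [hg]; exact div_mul_cancel₀ _ h1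
    linear_combination -h2
  have hslit : ∀ w ∈ ball w0 r, g w ∈ slitPlane := by
    intro w hw
    rw [mem_slitPlane_iff]
    by_contra hcon
    push Not at hcon
    obtain ⟨h1, h2⟩ := hcon
    have hgr : g w = ((g w).re : ℂ) := by
      apply Complex.ext
      · simp
      · simp [h2]
    have h3 := hgf w hw
    set s := (g w).re with hs
    rw [hgr] at h3
    have h4 : (1 - s) ≠ 0 := by intro h; linarith
    have h5 : f w = ((2 * (1 + s) / (1 - s) : ℝ) : ℂ) := by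
      have h4' : (1 - (s : ℂ)) ≠ 0 := by
        have := ofReal_ne_zero.mpr h4
        simpa using this
      push_cast
      rw [eq_div_iff h4']
      exact h3
    apply hav w hw
    rw [h5]
    refine ⟨ofReal_im _, ?_⟩
    rw [ofReal_re, abs_le]
    have h6 : 0 < 1 - s := by linarith
    constructor
    · rw [le_div_iff₀ h6]; linarith
    · rw [div_le_iff₀ h6]; linarith
  have hgd : ∀ w ∈ ball w0 r, DifferentiableAt ℂ g w := by
    intro w hw
    exact ((hf w).sub_const 2).div ((hf w).add_const 2) (hne w hw)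
  set q : ℂ → ℂ := fun w => exp (log (g w) / 2) with hq
  have hqd : ∀ w ∈ ball w0 r, DifferentiableAt ℂ q w := by
    intro w hw
    exact (((hgd w hw).clog (hslit w hw)).div_const 2).cexp
  have hqq : ∀ w ∈ ball w0 r, q w ^ 2 = g w := by
    intro w hw
    rw [hq]
    simp only
    rw [← exp_nat_mul]
    have : ((2 : ℕ) : ℂ) * (log (g w) / 2) = log (g w) := by push_cast; ring
    rw [this, exp_log (slitPlane_ne_zero (hslit w hw))]
  have hre : ∀ w ∈ ball w0 r, 0 < (q w).re := by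
    intro w hw
    rw [hq]
    simp only
    rw [exp_re]
    apply mul_pos (Real.exp_pos _)
    apply Real.cos_pos_of_mem_Ioo
    have him : (log (g w) / 2).im = arg (g w) / 2 := by
      rw [← log_im]
      simp
    rw [him]
    have h1 := neg_pi_lt_arg (g w)
    have h2 : arg (g w) < Real.pi := by
      have := (mem_slitPlane_iff_arg).mp (hslit w hw)
      exact lt_of_le_of_ne (arg_le_pi _) this.1
    constructor <;> linarith
  -- Schwarz
  set q0 := q w0 with hq0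
  set k : ℂ → ℂ := fun w => (q w - q0) / (q w + (starRingEnd ℂ) q0) with hk
  have hden : ∀ w ∈ ball w0 r, q w + (starRingEnd ℂ) q0 ≠ 0 := by
    intro w hw h
    have := congrArg Complex.re h
    simp only [add_re, conj_re, zero_re] at this
    have h1 := hre w hw
    have h2 := hre w0 hw0
    linarith
  have hkd : ∀ w ∈ ball w0 r, DifferentiableAt ℂ k w := by
    intro w hw
    exact ((hqd w hw).sub_const q0).div ((hqd w hw).add_const _) (hden w hw)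
  have hk0 : k w0 = 0 := by
    rw [hk]; simp [hq0]
  have hkm : Set.MapsTo k (ball w0 r) (ball (k w0) 1) := by
    intro w hw
    rw [hk0, mem_ball_zero_iff]
    simp only [hk]
    rw [norm_div, div_lt_one (norm_pos_iff.mpr (hden w hw))]
    apply lt_of_pow_lt_pow_left₀ 2 (norm_nonneg _)
    rw [← normSq_eq_norm_sq, ← normSq_eq_norm_sq, normSq_apply, normSq_apply]
    simp only [sub_re, sub_im, add_re, add_im, conj_re, conj_im]
    have h1 := hre w hw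
    have h2 : 0 < q0.re := hre w0 hw0
    nlinarith [mul_pos h1 h2]
  have hS := norm_deriv_le_div_of_mapsTo_ball (fun w hw => (hkd w hw).differentiableWithinAt)
    (hkm.mono_right ball_subset_closedBall) hr
  -- derivative of k at w0
  have hkder : HasDerivAt k (deriv q w0 / (q0 + (starRingEnd ℂ) q0)) w0 := by
    have h1 := (hqd w0 hw0).hasDerivAt
    have h2 : HasDerivAt k _ w0 :=
      (h1.sub_const q0).div (h1.add_const ((starRingEnd ℂ) q0)) (hden w0 hw0)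
    refine h2.congr_deriv ?_
    have h4 : q0 + (starRingEnd ℂ) q0 ≠ 0 := hden w0 hw0
    rw [← hq0]
    field_simp
    ring
  rw [hkder.deriv] at hS
  have hsum : q0 + (starRingEnd ℂ) q0 = ((2 * q0.re : ℝ) : ℂ) := by
    apply Complex.ext <;> simp; ring
  have hq0re : 0 < q0.re := hre w0 hw0
  have hdq : ‖deriv q w0‖ ≤ 2 * ‖q0‖ / r := by
    rw [hsum, norm_div, norm_real, Real.norm_eq_abs, abs_of_pos (by linarith),
      div_le_iff₀ (by linarith)] at hS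
    calc ‖deriv q w0‖ ≤ 1 / r * (2 * q0.re) := hS
      _ ≤ 1 / r * (2 * ‖q0‖) := by
          have := re_le_norm q0
          have : 0 ≤ 1 / r := by positivity
          gcongr
      _ = _ := by ring
  -- derivative of f
  have hgder1 : HasDerivAt g (2 * q0 * deriv q w0) w0 := by
    have h1 : HasDerivAt (fun w => q w ^ 2) (2 * q0 * deriv q w0) w0 := by
      have := (hqd w0 hw0).hasDerivAt.fun_pow 2
      refine this.congr_deriv ?_
      rw [hq0]; norm_num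
    apply h1.congr_of_eventuallyEq
    filter_upwards [ball_mem_nhds w0 hr] with w hw
    exact (hqq w hw).symm
  have hgder2 : HasDerivAt g (4 * deriv f w0 / (f w0 + 2) ^ 2) w0 := by
    have h1 := (hf w0).hasDerivAt
    have h2 : HasDerivAt g _ w0 := (h1.sub_const 2).div (h1.add_const 2) (hne w0 hw0)
    refine h2.congr_deriv ?_
    ring
  have hder := hgder1.unique hgder2
  have hf2 : f w0 + 2 ≠ 0 := hne w0 hw0
  have hf2' : (f w0 + 2) * (1 - g w0) = 4 := by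
    linear_combination hgf w0 hw0
  have hg1 : 1 - g w0 ≠ 0 := by
    intro h; rw [h, mul_zero] at hf2'; norm_num at hf2'
  have hfder : deriv f w0 * (1 - g w0) ^ 2 = 8 * q0 * deriv q w0 := by
    rw [eq_div_iff (pow_ne_zero 2 hf2)] at hder
    have e1 : (f w0 + 2) ^ 2 * (1 - g w0) ^ 2 = 16 := by rw [← mul_pow, hf2']; norm_num
    linear_combination (-(1 - g w0) ^ 2 / 4) * hder + (q0 * deriv q w0 / 2) * e1
  have hgq : g w0 = q0 ^ 2 := (hqq w0 hw0).symm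
  -- size of 1 - g
  have hsmall : ‖1 + g w0‖ ≤ ‖1 - g w0‖ := by
    have h1 := congrArg norm (hgf w0 hw0)
    rw [norm_mul, norm_mul] at h1
    simp only [norm_ofNat] at h1
    nlinarith [norm_nonneg (1 - g w0)]
  have h2q : 2 * ‖q0‖ ^ 2 ≤ ‖1 - g w0‖ ^ 2 := by
    have h1 : ‖1 + g w0‖ ^ 2 ≤ ‖1 - g w0‖ ^ 2 := by gcongr
    have h3 : ‖g w0‖ = ‖q0‖ ^ 2 := by rw [hgq, norm_pow]
    have h4 : ‖1 + g w0‖ ^ 2 + ‖1 - g w0‖ ^ 2 = 2 + 2 * ‖g w0‖ ^ 2 := by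
      rw [← normSq_eq_norm_sq, ← normSq_eq_norm_sq, ← normSq_eq_norm_sq, normSq_apply,
        normSq_apply, normSq_apply]
      simp only [sub_re, sub_im, add_re, add_im, one_re, one_im]
      ring
    rw [h3] at h4
    nlinarith [sq_nonneg (‖q0‖ ^ 2 - 1)]
  have hq0pos : 0 < ‖q0‖ := by
    have := re_le_norm q0
    linarith
  have hfn := congrArg norm hfder
  rw [norm_mul, norm_mul, norm_mul, norm_pow] at hfn
  simp only [norm_ofNat] at hfn
  have hfinal : ‖deriv f w0‖ * (2 * ‖q0‖ ^ 2) ≤ 8 / r * (2 * ‖q0‖ ^ 2) := by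
    calc ‖deriv f w0‖ * (2 * ‖q0‖ ^ 2) ≤ ‖deriv f w0‖ * ‖1 - g w0‖ ^ 2 := by gcongr
      _ = 8 * ‖q0‖ * ‖deriv q w0‖ := hfn
      _ ≤ 8 * ‖q0‖ * (2 * ‖q0‖ / r) := by gcongr
      _ = _ := by ring
  exact le_of_mul_le_mul_right hfinal (by positivity)

/-- The algebraic identity behind the derivative inequality. -/
theorem alg_identity (x dx μ : ℂ) (y d : ℕ → ℂ)
    (hy : ∀ k, y (k + 2) = x * y (k + 1) - y k)
    (hd : ∀ k, d (k + 2) = dx * y (k + 1) + x * d (k + 1) - d k)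
    (h0 : x ^ 2 + y 0 ^ 2 + y 1 ^ 2 - x * y 0 * y 1 = μ)
    (h1 : 2 * x * dx + 2 * y 0 * d 0 + 2 * y 1 * d 1 -
      (dx * y 0 * y 1 + x * d 0 * y 1 + x * y 0 * d 1) = 0) (k : ℕ) :
    ((4 - x ^ 2) * (μ - x ^ 2) * d k - (μ - 4) * x * dx * y k) * (2 * y 1 - x * y 0) =
    (2 * y (k + 1) - x * y k) * (((4 - x ^ 2) * (μ - x ^ 2) * d 0 - (μ - 4) * x * dx * y 0) -
      k * (μ - x ^ 2) * dx * (2 * y 1 - x * y 0)) := by
  induction k using Nat.twoStepInduction with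
  | zero => push_cast; ring
  | one =>
    have hy0 := hy 0
    have e2 : y (1 + 1) = x * y 1 - y 0 := hy0
    rw [e2]
    push_cast
    have h1' : d 1 * (2 * y 1 - x * y 0) - d 0 * (x * y 1 - 2 * y 0) =
      (y 0 * y 1 - 2 * x) * dx := by linear_combination h1
    subst h0
    linear_combination ((4 - x ^ 2) * (y 0 ^ 2 + y 1 ^ 2 - x * y 0 * y 1)) * h1'
  | more k ih1 ih2 =>
    have e1 := hy k
    have e2 := hy (k + 1)
    have e3 := hd k
    have e4 : y (k + 2 + 1) = x * y (k + 2) - y (k + 1) := e2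
    have e5 : y (k + 1 + 1) = x * y (k + 1) - y k := e1
    rw [e4, e3, e1]
    rw [e5] at ih2
    push_cast at ih1 ih2 ⊢
    linear_combination x * ih2 - ih1

/-- the `D` identity -/
theorem D_sq (x μ : ℂ) (y : ℕ → ℂ) (hy : ∀ k, y (k + 2) = x * y (k + 1) - y k)
    (h0 : x ^ 2 + y 0 ^ 2 + y 1 ^ 2 - x * y 0 * y 1 = μ) (k : ℕ) :
    (2 * y (k + 1) - x * y k) ^ 2 = 4 * (μ - x ^ 2) - (4 - x ^ 2) * y k ^ 2 := by
  have hk : ∀ k : ℕ, x ^ 2 + y k ^ 2 + y (k + 1) ^ 2 - x * y k * y (k + 1) = μ := by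
    intro k
    induction k with
    | zero => exact h0
    | succ k ih =>
      rw [show k + 1 + 1 = k + 2 from rfl, hy k]
      linear_combination ih
  linear_combination 4 * hk k

theorem D_large (x D y : ℂ) (hx : ‖x‖ ≤ 2) (hy : ‖y‖ ≤ 2)
    (h : D ^ 2 = 4 * (1000004 - x ^ 2) - (4 - x ^ 2) * y ^ 2) : 1900 ≤ ‖D‖ := by
  apply le_of_sq_le (by norm_num) (norm_nonneg _)
  rw [← norm_pow, h]
  have h1 : ‖4 * (1000004 - x ^ 2) - (4 - x ^ 2) * y ^ 2‖ ≥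
      ‖(4000016 : ℂ)‖ - ‖4 * x ^ 2 + (4 - x ^ 2) * y ^ 2‖ := by
    have := norm_sub_norm_le (4000016 : ℂ) (4 * x ^ 2 + (4 - x ^ 2) * y ^ 2)
    have e : (4000016 : ℂ) - (4 * x ^ 2 + (4 - x ^ 2) * y ^ 2) =
      4 * (1000004 - x ^ 2) - (4 - x ^ 2) * y ^ 2 := by ring
    rw [e] at this
    exact this
  have hx2 : ‖x‖ ^ 2 ≤ 2 ^ 2 := by gcongr
  have hy2 : ‖y‖ ^ 2 ≤ 2 ^ 2 := by gcongr
  have h2 : ‖4 * x ^ 2 + (4 - x ^ 2) * y ^ 2‖ ≤ 48 := by
    calc ‖4 * x ^ 2 + (4 - x ^ 2) * y ^ 2‖ ≤ ‖4 * x ^ 2‖ + ‖(4 - x ^ 2) * y ^ 2‖ := norm_add_le _ _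
      _ = 4 * ‖x‖ ^ 2 + ‖4 - x ^ 2‖ * ‖y‖ ^ 2 := by
          rw [norm_mul, norm_mul, norm_pow, norm_pow]; norm_num
      _ ≤ 4 * 2 ^ 2 + (4 + 2 ^ 2) * 2 ^ 2 := by
          gcongr
          calc ‖4 - x ^ 2‖ ≤ ‖(4 : ℂ)‖ + ‖x ^ 2‖ := norm_sub_le _ _
            _ = 4 + ‖x‖ ^ 2 := by rw [norm_pow]; norm_num
            _ ≤ _ := by gcongr
      _ = 48 := by norm_num
  have h3 : ‖(4000016 : ℂ)‖ = 4000016 := by norm_num
  rw [h3] at h1
  linarith

/-- Inequality (P) for derivatives. -/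
theorem P_der (x dx : ℂ) (y d : ℕ → ℂ)
    (hy : ∀ k, y (k + 2) = x * y (k + 1) - y k)
    (hd : ∀ k, d (k + 2) = dx * y (k + 1) + x * d (k + 1) - d k)
    (h0 : x ^ 2 + y 0 ^ 2 + y 1 ^ 2 - x * y 0 * y 1 = 1000004)
    (h1 : 2 * x * dx + 2 * y 0 * d 0 + 2 * y 1 * d 1 -
      (dx * y 0 * y 1 + x * d 0 * y 1 + x * y 0 * d 1) = 0) (k : ℕ)
    (hx : ‖x‖ ≤ 2) (hy0 : ‖y 0‖ ≤ 2) (hyk : ‖y (k + 1)‖ ≤ 2) :
    4 * ‖dx‖ ≤ ‖d 0‖ + ‖d (k + 1)‖ := by
  have hid := alg_identity x dx 1000004 y d hy hd h0 h1 (k + 1)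
  have hD0 := D_large x _ (y 0) hx hy0 (D_sq x 1000004 y hy h0 0)
  have hDk := D_large x _ (y (k + 1)) hx hyk (D_sq x 1000004 y hy h0 (k + 1))
  rw [zero_add] at hD0
  set D0 := 2 * y 1 - x * y 0 with hD0def
  set Dk := 2 * y (k + 1 + 1) - x * y (k + 1) with hDkdef
  set m := (1000004 : ℂ) - x ^ 2 with hm
  have hx2 : ‖x‖ ^ 2 ≤ 2 ^ 2 := by gcongr
  have hmn : 1000000 ≤ ‖m‖ := by
    have := norm_sub_norm_le (1000004 : ℂ) (x ^ 2)
    rw [norm_pow] at this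
    have h3 : ‖(1000004 : ℂ)‖ = 1000004 := by norm_num
    rw [h3] at this
    linarith
  have hmn2 : ‖m‖ ≤ 1000008 := by
    have := norm_sub_le (1000004 : ℂ) (x ^ 2)
    rw [norm_pow] at this
    have h3 : ‖(1000004 : ℂ)‖ = 1000004 := by norm_num
    rw [h3] at this
    linarith
  have hqn : ‖4 - x ^ 2‖ ≤ 8 := by
    calc ‖4 - x ^ 2‖ ≤ ‖(4 : ℂ)‖ + ‖x ^ 2‖ := norm_sub_le _ _
      _ = 4 + ‖x‖ ^ 2 := by rw [norm_pow]; norm_num
      _ ≤ 4 + 2 ^ 2 := by gcongr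
      _ = 8 := by norm_num
  -- E's
  set E0 := (4 - x ^ 2) * m * d 0 - ((1000004 : ℂ) - 4) * x * dx * y 0 with hE0
  set Ek := (4 - x ^ 2) * m * d (k + 1) - ((1000004 : ℂ) - 4) * x * dx * y (k + 1) with hEk
  have hEn : ∀ (a b : ℂ), ‖b‖ ≤ 2 → ‖(4 - x ^ 2) * m * a - ((1000004 : ℂ) - 4) * x * dx * b‖ ≤
      8000064 * ‖a‖ + 4000000 * ‖dx‖ := by
    intro a b hb
    calc ‖(4 - x ^ 2) * m * a - ((1000004 : ℂ) - 4) * x * dx * b‖
        ≤ ‖(4 - x ^ 2) * m * a‖ + ‖((1000004 : ℂ) - 4) * x * dx * b‖ := norm_sub_le _ _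
      _ = ‖4 - x ^ 2‖ * ‖m‖ * ‖a‖ + 1000000 * ‖x‖ * ‖dx‖ * ‖b‖ := by
          simp only [norm_mul]; norm_num
      _ ≤ 8 * 1000008 * ‖a‖ + 1000000 * 2 * ‖dx‖ * 2 := by gcongr
      _ = _ := by ring
  have hE0n := hEn (d 0) (y 0) hy0
  have hEkn := hEn (d (k + 1)) (y (k + 1)) hyk
  rw [← hE0] at hE0n
  rw [← hEk] at hEkn
  -- main
  have hmain : ((k + 1 : ℕ) : ℂ) * m * dx * (D0 * Dk) = E0 * Dk - Ek * D0 := by
    linear_combination hid
  have hn := congrArg norm hmain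
  rw [norm_mul, norm_mul, norm_mul, norm_mul, Complex.norm_natCast] at hn
  have hn2 : ‖E0 * Dk - Ek * D0‖ ≤ ‖E0‖ * ‖Dk‖ + ‖Ek‖ * ‖D0‖ := by
    refine (norm_sub_le _ _).trans ?_
    rw [norm_mul, norm_mul]
  have hk1 : (1 : ℝ) ≤ ((k + 1 : ℕ) : ℝ) := by
    push_cast
    have : (0 : ℝ) ≤ k := Nat.cast_nonneg k
    linarith
  have hlow : 1000000 * ‖dx‖ * (‖D0‖ * ‖Dk‖) ≤ ((k + 1 : ℕ) : ℝ) * ‖m‖ * ‖dx‖ * (‖D0‖ * ‖Dk‖) := by
    have : (1000000 : ℝ) = 1 * 1000000 := by norm_num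
    rw [this]
    gcongr
  have hD0p : 0 < ‖D0‖ := by linarith
  have hDkp : 0 < ‖Dk‖ := by linarith
  have hup : ‖E0‖ * ‖Dk‖ + ‖Ek‖ * ‖D0‖ ≤ (‖E0‖ + ‖Ek‖) / 1900 * (‖D0‖ * ‖Dk‖) := by
    have a1 : ‖E0‖ * ‖Dk‖ ≤ ‖E0‖ / 1900 * (‖D0‖ * ‖Dk‖) := by
      have : ‖E0‖ / 1900 * (‖D0‖ * ‖Dk‖) = (‖E0‖ * ‖Dk‖) * (‖D0‖ / 1900) := by ring
      rw [this]
      apply le_mul_of_one_le_right (by positivity)
      rw [le_div_iff₀ (by norm_num)]; linarith
    have a2 : ‖Ek‖ * ‖D0‖ ≤ ‖Ek‖ / 1900 * (‖D0‖ * ‖Dk‖) := by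
      have : ‖Ek‖ / 1900 * (‖D0‖ * ‖Dk‖) = (‖Ek‖ * ‖D0‖) * (‖Dk‖ / 1900) := by ring
      rw [this]
      apply le_mul_of_one_le_right (by positivity)
      rw [le_div_iff₀ (by norm_num)]; linarith
    calc _ ≤ ‖E0‖ / 1900 * (‖D0‖ * ‖Dk‖) + ‖Ek‖ / 1900 * (‖D0‖ * ‖Dk‖) := add_le_add a1 a2
      _ = _ := by ring
  have hfin : 1000000 * ‖dx‖ ≤ (‖E0‖ + ‖Ek‖) / 1900 := by
    have : 1000000 * ‖dx‖ * (‖D0‖ * ‖Dk‖) ≤ (‖E0‖ + ‖Ek‖) / 1900 * (‖D0‖ * ‖Dk‖) :=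
      hlow.trans (hn.trans_le (hn2.trans hup))
    exact le_of_mul_le_mul_right this (by positivity)
  rw [le_div_iff₀ (by norm_num)] at hfin
  have := norm_nonneg (d 0)
  have := norm_nonneg (d (k + 1))
  have := norm_nonneg dx
  linarith

end Pool.MP_0e28f3_gt
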