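import Mathlib
import Pool.Agent.Work.MP_0e28f3_gt.Deriv
import Pool.Agent.Work.MP_0e28f3_gt.Classify
set_option autoImplicit false

/-!
Traces in `SL₂(ℂ)`, the Bowditch condition of a pair, and its symmetries.
-/

namespace Pool.MP_0e28f3_gt

open FreeGroup (of)

abbrev SL2C := Matrix.SpecialLinearGroup (Fin 2) ℂ

/-- the trace -/
def tr (A : SL2C) : ℂ := (A : Matrix (Fin 2) (Fin 2) ℂ).trace

theorem tr_eq (A : SL2C) : tr A = A.1 0 0 + A.1 1 1 := Matrix.trace_fin_two _

theorem tr_mul_comm (A B : SL2C) : tr (A * B) = tr (B * A) := by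
  rw [tr, tr, Matrix.SpecialLinearGroup.coe_mul, Matrix.SpecialLinearGroup.coe_mul,
    Matrix.trace_mul_comm]

theorem tr_inv (A : SL2C) : tr A⁻¹ = tr A := by
  rw [tr_eq, tr_eq]
  rw [Matrix.SpecialLinearGroup.coe_inv, Matrix.adjugate_fin_two]
  simp
  ring

theorem tr_conj (A B : SL2C) : tr (B * A * B⁻¹) = tr A := by
  rw [tr_mul_comm]; congr 1; group

theorem tr_mul_inv (A B : SL2C) : tr (A * B⁻¹) = tr A * tr B - tr (A * B) := by
  rw [tr_eq, tr_eq, tr_eq, tr_eq]
  rw [Matrix.SpecialLinearGroup.coe_mul, Matrix.SpecialLinearGroup.coe_mul,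
    Matrix.SpecialLinearGroup.coe_inv, Matrix.adjugate_fin_two]
  simp only [Matrix.mul_apply, Fin.sum_univ_two]
  simp
  ring

theorem tr_isConj {A B : SL2C} (h : IsConj A B) : tr A = tr B := by
  rw [isConj_iff] at h
  obtain ⟨c, hc⟩ := h
  rw [← hc, tr_conj]

/-- `x² + y² + z² - xyz` in terms of the commutator -/
def lev (x y z : ℂ) : ℂ := x ^ 2 + y ^ 2 + z ^ 2 - x * y * z

theorem tr_mul_mul_left (A B : SL2C) : tr (A * (A * B)) = tr A * tr (A * B) - tr B := by
  have h := tr_mul_inv (A * B) A⁻¹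
  rw [inv_inv, tr_inv] at h
  have h1 : tr (A * B * A) = tr (A * (A * B)) := tr_mul_comm _ _
  have h2 : tr (A * B * A⁻¹) = tr B := tr_conj B A
  rw [h1, h2] at h
  rw [h]; ring

theorem tr_mul_mul_right (A B : SL2C) : tr (A * B * B) = tr (A * B) * tr B - tr A := by
  have h := tr_mul_inv (A * B) B
  have h1 : tr (A * B * B⁻¹) = tr A := by congr 1; group
  rw [h1] at h
  rw [h]; ring

theorem tr_elt (p : List Bool) (A B : SL2C) :
    tr (elt p A B) = fwd p (tr A) (tr B) (tr (A * B)) := by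
  induction p generalizing A B with
  | nil => rfl
  | cons b p ih =>
    cases b
    · simp only [elt, fwd]
      rw [ih, tr_mul_mul_left]
    · simp only [elt, fwd]
      rw [ih, tr_mul_mul_right]

theorem map_elt {G H : Type*} [Group G] [Group H] (f : G →* H) (p : List Bool) (g h : G) :
    f (elt p g h) = elt p (f g) (f h) := by
  induction p generalizing g h with
  | nil => simp [elt]
  | cons b p ih => cases b <;> simp [elt, ih]

/-- the representation of a pair of matrices -/
noncomputable def rho (A B : SL2C) : F2 →* SL2C := FreeGroup.lift ![A, B]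

@[simp] theorem rho_of0 (A B : SL2C) : rho A B (of 0) = A := by simp [rho]
@[simp] theorem rho_of1 (A B : SL2C) : rho A B (of 1) = B := by simp [rho]

theorem tr_rho_isConj (A B : SL2C) {w s : F2} (h : IsConj w s) :
    tr (rho A B w) = tr (rho A B s) :=
  tr_isConj ((rho A B).map_isConj h)

theorem tr_rho_CI (A B : SL2C) {w s : F2} (h : CI w s) : tr (rho A B w) = tr (rho A B s) := by
  rcases h with h | h
  · exact tr_rho_isConj A B h
  · rw [tr_rho_isConj A B h, map_inv, tr_inv]

/-- the forbidden interval -/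
def Bad (t : ℂ) : Prop := t.im = 0 ∧ |t.re| ≤ 2

theorem Bad.neg {t : ℂ} (h : Bad t) : Bad (-t) := by
  obtain ⟨h1, h2⟩ := h
  exact ⟨by simp [h1], by simpa using h2⟩

theorem bad_norm {t : ℂ} (h : Bad t) : ‖t‖ ≤ 2 := by
  obtain ⟨h1, h2⟩ := h
  have : t = (t.re : ℂ) := by
    apply Complex.ext
    · simp
    · simp [h1]
  rw [this, Complex.norm_real, Real.norm_eq_abs]
  exact h2

/-- The Bowditch conditions for the pair `A, B`. -/
def BQ (A B : SL2C) : Prop :=
  (∀ w : F2, Prim w → ¬ Bad (tr (rho A B w))) ∧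
  ∃ S : Finset F2, ∀ w : F2, Prim w → ‖tr (rho A B w)‖ ≤ 2 → ∃ s ∈ S, IsConj w s ∨ IsConj w s⁻¹

/-- Criterion for the finiteness condition. -/
theorem BQ2_of_finite (A B : SL2C) (x y z : ℂ) (hA : tr A = x) (hB : tr B = y)
    (hAB : tr (A * B) = z)
    (h1 : {p : List Bool | ‖fwd p x y z‖ ≤ 2}.Finite)
    (h2 : {p : List Bool | ‖fwd p x y (x * y - z)‖ ≤ 2}.Finite) :
    ∃ S : Finset F2, ∀ w : F2, Prim w → ‖tr (rho A B w)‖ ≤ 2 →
      ∃ s ∈ S, IsConj w s ∨ IsConj w s⁻¹ := by
  have e1 : ∀ p : List Bool, tr (rho A B (elt p (of 0) (of 1))) = fwd p x y z := by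
    intro p
    rw [map_elt, rho_of0, rho_of1, tr_elt, hA, hB, hAB]
  have e2 : ∀ p : List Bool, tr (rho A B (elt p (of 0) (of 1)⁻¹)) = fwd p x y (x * y - z) := by
    intro p
    rw [map_elt, map_inv, rho_of0, rho_of1, tr_elt, tr_inv, tr_mul_inv, hA, hB, hAB]
  classical
  refine ⟨{of 0, of 1} ∪ h1.toFinset.image (fun p => elt p (of 0) (of 1)) ∪
    h2.toFinset.image (fun p => elt p (of 0) (of 1)⁻¹), ?_⟩
  intro w hw hn
  obtain ⟨s, hs, hc⟩ := prim_std hw
  refine ⟨s, ?_, hc⟩
  rw [tr_rho_CI A B hc] at hn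
  rcases hs with rfl | rfl | ⟨p, rfl⟩ | ⟨p, rfl⟩
  · simp
  · simp
  · rw [e1] at hn
    apply Finset.mem_union_left
    apply Finset.mem_union_right
    rw [Finset.mem_image]
    exact ⟨p, by simpa using hn, rfl⟩
  · rw [e2] at hn
    apply Finset.mem_union_right
    rw [Finset.mem_image]
    exact ⟨p, by simpa using hn, rfl⟩

/-- Criterion for the Bowditch conditions. -/
theorem BQ_of_finite (A B : SL2C) (x y z : ℂ) (hA : tr A = x) (hB : tr B = y) (hAB : tr (A * B) = z)
    (hx : ¬ Bad x) (hy : ¬ Bad y)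
    (h1 : {p : List Bool | ‖fwd p x y z‖ ≤ 2}.Finite)
    (h2 : {p : List Bool | ‖fwd p x y (x * y - z)‖ ≤ 2}.Finite)
    (h3 : ∀ p : List Bool, ¬ Bad (fwd p x y z))
    (h4 : ∀ p : List Bool, ¬ Bad (fwd p x y (x * y - z))) : BQ A B := by
  have e1 : ∀ p : List Bool, tr (rho A B (elt p (of 0) (of 1))) = fwd p x y z := by
    intro p
    rw [map_elt, rho_of0, rho_of1, tr_elt, hA, hB, hAB]
  have e2 : ∀ p : List Bool, tr (rho A B (elt p (of 0) (of 1)⁻¹)) = fwd p x y (x * y - z) := by
    intro p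
    rw [map_elt, map_inv, rho_of0, rho_of1, tr_elt, tr_inv, tr_mul_inv, hA, hB, hAB]
  constructor
  · intro w hw
    obtain ⟨s, hs, hc⟩ := prim_std hw
    rw [tr_rho_CI A B hc]
    rcases hs with rfl | rfl | ⟨p, rfl⟩ | ⟨p, rfl⟩
    · rw [rho_of0, hA]; exact hx
    · rw [rho_of1, hB]; exact hy
    · rw [e1]; exact h3 p
    · rw [e2]; exact h4 p
  · exact BQ2_of_finite A B x y z hA hB hAB h1 h2

/-- precomposition with an automorphism -/
theorem BQ_comp (A B : SL2C) (φ : F2 ≃* F2) (A' B' : SL2C) (hA : rho A B (φ (of 0)) = A')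
    (hB : rho A B (φ (of 1)) = B') (h : BQ A' B') : BQ A B := by
  have hcomp : rho A' B' = (rho A B).comp φ.toMonoidHom := by
    apply FreeGroup.ext_hom
    intro i
    fin_cases i
    · simp [hA]
    · simp [hB]
  have hc : ∀ w : F2, rho A B w = rho A' B' (φ.symm w) := by
    intro w
    rw [hcomp]; simp
  obtain ⟨h1, S, hS⟩ := h
  have hprim : ∀ w : F2, Prim w → Prim (φ.symm w) := by
    rintro w ⟨ψ, rfl⟩
    exact ⟨ψ.trans φ.symm, rfl⟩
  constructor
  · intro w hw
    rw [hc]; exact h1 _ (hprim w hw)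
  · classical
    refine ⟨S.image φ, ?_⟩
    intro w hw hn
    rw [hc] at hn
    obtain ⟨s, hs, h2⟩ := hS _ (hprim w hw) hn
    refine ⟨φ s, Finset.mem_image_of_mem _ hs, ?_⟩
    rcases h2 with h2 | h2
    · left
      have := φ.toMonoidHom.map_isConj h2
      simpa using this
    · right
      have := φ.toMonoidHom.map_isConj h2
      simpa using this

/-- the triple of traces of a pair -/
def tv (A B : SL2C) : Fin 3 → ℂ := ![tr A, tr B, tr (A * B)]

/-- the level function -/
def level (v : Fin 3 → ℂ) : ℂ := v 0 ^ 2 + v 1 ^ 2 + v 2 ^ 2 - v 0 * v 1 * v 2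

/-- Every automorphism acts on triples of traces by a homeomorphism of `ℂ³` preserving the level
function. -/
theorem transport (g h : F2) (hgen : Subgroup.closure {g, h} = ⊤) :
    ∃ T : (Fin 3 → ℂ) ≃ₜ (Fin 3 → ℂ), (∀ v, level (T v) = level v) ∧
      ∀ A B : SL2C, tv (rho A B g) (rho A B h) = T (tv A B) := by
  refine nielsen_induction (fun g h => ∃ T : (Fin 3 → ℂ) ≃ₜ (Fin 3 → ℂ),
      (∀ v, level (T v) = level v) ∧
      ∀ A B : SL2C, tv (rho A B g) (rho A B h) = T (tv A B)) ?_ ?_ ?_ ?_ ?_ g h hgen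
  · exact ⟨Homeomorph.refl _, fun v => rfl, fun A B => by simp⟩
  · rintro g h ⟨T, hT1, hT2⟩
    let σ : (Fin 3 → ℂ) ≃ₜ (Fin 3 → ℂ) :=
      { toFun := fun v => ![v 1, v 0, v 2]
        invFun := fun v => ![v 1, v 0, v 2]
        left_inv := fun v => by ext i; fin_cases i <;> rfl
        right_inv := fun v => by ext i; fin_cases i <;> rfl
        continuous_toFun := by
          refine continuous_pi fun i => ?_
          fin_cases i <;> simp <;> fun_prop
        continuous_invFun := by
          refine continuous_pi fun i => ?_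
          fin_cases i <;> simp <;> fun_prop }
    refine ⟨T.trans σ, fun v => ?_, fun A B => ?_⟩
    · rw [← hT1 v]
      change level ![(T v) 1, (T v) 0, (T v) 2] = _
      simp only [level, Matrix.cons_val_zero, Matrix.cons_val_one, Matrix.cons_val]
      ring
    · change _ = ![(T (tv A B)) 1, (T (tv A B)) 0, (T (tv A B)) 2]
      rw [← hT2 A B]
      simp only [tv, Matrix.cons_val_zero, Matrix.cons_val_one, Matrix.cons_val]
      rw [tr_mul_comm]
  · rintro g h ⟨T, hT1, hT2⟩
    let σ : (Fin 3 → ℂ) ≃ₜ (Fin 3 → ℂ) :=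
      { toFun := fun v => ![v 0, v 1, v 0 * v 1 - v 2]
        invFun := fun v => ![v 0, v 1, v 0 * v 1 - v 2]
        left_inv := fun v => by ext i; fin_cases i <;> simp
        right_inv := fun v => by ext i; fin_cases i <;> simp
        continuous_toFun := by
          refine continuous_pi fun i => ?_
          fin_cases i <;> simp <;> fun_prop
        continuous_invFun := by
          refine continuous_pi fun i => ?_
          fin_cases i <;> simp <;> fun_prop }
    refine ⟨T.trans σ, fun v => ?_, fun A B => ?_⟩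
    · rw [← hT1 v]
      change level ![(T v) 0, (T v) 1, (T v) 0 * (T v) 1 - (T v) 2] = _
      simp only [level, Matrix.cons_val_zero, Matrix.cons_val_one, Matrix.cons_val]
      ring
    · change _ = ![(T (tv A B)) 0, (T (tv A B)) 1, (T (tv A B)) 0 * (T (tv A B)) 1 - (T (tv A B)) 2]
      rw [← hT2 A B]
      simp only [tv, Matrix.cons_val_zero, Matrix.cons_val_one, Matrix.cons_val]
      rw [map_inv, tr_inv, tr_mul_inv]
  · rintro g h ⟨T, hT1, hT2⟩
    let σ : (Fin 3 → ℂ) ≃ₜ (Fin 3 → ℂ) :=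
      { toFun := fun v => ![v 0, v 2, v 0 * v 2 - v 1]
        invFun := fun v => ![v 0, v 0 * v 1 - v 2, v 1]
        left_inv := fun v => by ext i; fin_cases i <;> simp
        right_inv := fun v => by ext i; fin_cases i <;> simp
        continuous_toFun := by
          refine continuous_pi fun i => ?_
          fin_cases i <;> simp <;> fun_prop
        continuous_invFun := by
          refine continuous_pi fun i => ?_
          fin_cases i <;> simp <;> fun_prop }
    refine ⟨T.trans σ, fun v => ?_, fun A B => ?_⟩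
    · rw [← hT1 v]
      change level ![(T v) 0, (T v) 2, (T v) 0 * (T v) 2 - (T v) 1] = _
      simp only [level, Matrix.cons_val_zero, Matrix.cons_val_one, Matrix.cons_val]
      ring
    · change _ = ![(T (tv A B)) 0, (T (tv A B)) 2, (T (tv A B)) 0 * (T (tv A B)) 2 - (T (tv A B)) 1]
      rw [← hT2 A B]
      simp only [tv, Matrix.cons_val_zero, Matrix.cons_val_one, Matrix.cons_val]
      rw [map_mul, tr_mul_mul_left]
  · rintro c g h ⟨T, hT1, hT2⟩
    refine ⟨T, hT1, fun A B => ?_⟩
    rw [← hT2 A B]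
    simp only [tv]
    have e : rho A B (c * g * c⁻¹) * rho A B (c * h * c⁻¹) = rho A B c * (rho A B g * rho A B h) *
      (rho A B c)⁻¹ := by
      rw [← map_mul]
      have : c * g * c⁻¹ * (c * h * c⁻¹) = c * (g * h) * c⁻¹ := by group
      rw [this, map_mul, map_mul, map_inv, map_mul]
    rw [e, tr_conj]
    simp only [map_mul, map_inv, tr_conj]

end Pool.MP_0e28f3_gt
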