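import Mathlib
import Pool.Agent.Work.MP_0e28f3_gt.Traces
set_option autoImplicit false

/-!
Explicit representations in the slices `x = 2 cos θ`, and the finiteness statements.
-/

namespace Pool.MP_0e28f3_gt

open FreeGroup (of)
open Complex (exp log cos sin I slitPlane)

/-- a square root -/
noncomputable def sq (ζ : ℂ) : ℂ := exp (log ζ / 2)

theorem sq_sq {ζ : ℂ} (h : ζ ≠ 0) : sq ζ ^ 2 = ζ := by
  rw [sq, ← Complex.exp_nat_mul]
  have : ((2 : ℕ) : ℂ) * (log ζ / 2) = log ζ := by push_cast; ring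
  rw [this, Complex.exp_log h]

theorem continuousAt_sq {ζ : ℂ} (h : ζ ∈ slitPlane) : ContinuousAt sq ζ := by
  have h1 : ContinuousAt log ζ := continuousAt_clog h
  exact (h1.div_const 2).cexp

noncomputable def Am (θ : ℂ) : SL2C :=
  ⟨!![exp (θ * I), 0; 0, exp (-θ * I)], by
    rw [Matrix.det_fin_two_of, ← Complex.exp_add]; simp⟩

noncomputable def Bm (M w : ℂ) : SL2C :=
  ⟨!![M * exp (w * I), M ^ 2 - 1; 1, M * exp (-w * I)], by
    rw [Matrix.det_fin_two_of]
    have : exp (w * I) * exp (-w * I) = 1 := by rw [← Complex.exp_add]; simp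
    linear_combination M ^ 2 * this⟩

theorem tr_Am (θ : ℂ) : tr (Am θ) = 2 * cos θ := by
  rw [tr_eq, Complex.cos]
  simp [Am]
  ring

theorem tr_Bm (M w : ℂ) : tr (Bm M w) = 2 * M * cos w := by
  rw [tr_eq, Complex.cos]
  simp [Bm]
  ring

theorem tr_AmBm (θ M w : ℂ) : tr (Am θ * Bm M w) = 2 * M * cos (w + θ) := by
  rw [tr_eq, Complex.cos, Matrix.SpecialLinearGroup.coe_mul]
  have e1 : exp ((w + θ) * I) = exp (θ * I) * exp (w * I) := by
    rw [← Complex.exp_add]; congr 1; ring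
  have e2 : exp (-(w + θ) * I) = exp (-θ * I) * exp (-w * I) := by
    rw [← Complex.exp_add]; congr 1; ring
  rw [e1, e2]
  simp [Am, Bm, Matrix.mul_apply, Fin.sum_univ_two]
  ring

theorem tv_slice (θ M w : ℂ) :
    tv (Am θ) (Bm M w) = ![2 * cos θ, 2 * M * cos w, 2 * M * cos (w + θ)] := by
  rw [tv, tr_Am, tr_Bm, tr_AmBm]

theorem nb_cos (θ M w : ℂ) (k : ℕ) :
    nb (2 * cos θ) (2 * M * cos w) (2 * M * cos (w + θ)) k = 2 * M * cos (w + k * θ) := by
  induction k using Nat.twoStepInduction with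
  | zero => simp
  | one => simp
  | more k ih1 ih2 =>
    rw [nb_add_two, ih1, ih2]
    have e1 : w + ((k + 2 : ℕ) : ℂ) * θ = (w + ((k + 1 : ℕ) : ℂ) * θ) + θ := by
      push_cast; ring
    have e2 : w + ((k : ℕ) : ℂ) * θ = (w + ((k + 1 : ℕ) : ℂ) * θ) - θ := by
      push_cast; ring
    have h1 := Complex.cos_add (w + ((k + 1 : ℕ) : ℂ) * θ) θ
    have h2 := Complex.cos_sub (w + ((k + 1 : ℕ) : ℂ) * θ) θ
    rw [← e1] at h1
    rw [← e2] at h2
    rw [h1, h2]
    ring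

theorem slice_level (θ R M w : ℂ) (hR : R ^ 2 = 1000004 - (2 * cos θ) ^ 2)
    (hM : 2 * M * sin θ = R) :
    (2 * cos θ) ^ 2 + (2 * M * cos w) ^ 2 + (2 * M * cos (w + θ)) ^ 2 -
      (2 * cos θ) * (2 * M * cos w) * (2 * M * cos (w + θ)) = 1000004 := by
  rw [Complex.cos_add]
  have h1 := Complex.sin_sq_add_cos_sq θ
  have h2 := Complex.sin_sq_add_cos_sq w
  have h3 : 4 * M ^ 2 * sin θ ^ 2 = 1000004 - (2 * cos θ) ^ 2 := by
    rw [← hR, ← hM]; ring
  linear_combination h3 + (4 * M ^ 2 * sin θ ^ 2) * h2 - (4 * M ^ 2 * cos w ^ 2) * h1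

theorem R_norm {x R : ℂ} (hx : ‖x‖ ≤ 2) (hR : R ^ 2 = 1000004 - x ^ 2) : 1000 ≤ ‖R‖ := by
  apply le_of_sq_le (by norm_num) (norm_nonneg _)
  rw [← norm_pow, hR]
  have := norm_sub_norm_le (1000004 : ℂ) (x ^ 2)
  rw [norm_pow] at this
  have h3 : ‖(1000004 : ℂ)‖ = 1000004 := by norm_num
  rw [h3] at this
  have hx2 : ‖x‖ ^ 2 ≤ 2 ^ 2 := by gcongr
  linarith

/-- one side of the fan, half step version -/
theorem slice_FG_im (θ R M w : ℂ) (hx : ‖2 * cos θ‖ ≤ 2) (hθ : θ.im ≠ 0)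
    (hθ' : ¬ Bad (2 * cos θ)) (hR : R ^ 2 = 1000004 - (2 * cos θ) ^ 2)
    (hM : 2 * M * sin θ = R) (hw : ∀ k : ℕ, |θ.im| / 2 ≤ |(w + k * θ).im|) :
    FG (RingHom.id ℂ) (fun x : ℂ => |x.im|) (2 * cos θ) (2 * M * cos w) (2 * M * cos (w + θ)) := by
  have hlev := slice_level θ R M w hR hM
  apply root_fin indHyp_im (show InvC _ _ _ from hlev) hx
  · exact fin_nb _ _ _ hlev hx hθ'
  · intro k hk
    simp only [RingHom.id_apply] at hk
    have h1 : cos (w + k * θ) * R = nb (2 * cos θ) (2 * M * cos w) (2 * M * cos (w + θ)) k * sin θ := by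
      rw [nb_cos, ← hM]; ring
    exact half_step θ R _ hx hθ hR hk _ h1 (hw k)

theorem slice_BQ (θ R M w : ℂ) (hx : ‖2 * cos θ‖ ≤ 2) (hθ : θ.im ≠ 0)
    (hθ' : ¬ Bad (2 * cos θ)) (hR : R ^ 2 = 1000004 - (2 * cos θ) ^ 2)
    (hM : 2 * M * sin θ = R) (hw : ∀ k : ℕ, |θ.im| / 2 ≤ |(w + k * θ).im|)
    (hw' : ∀ k : ℕ, |θ.im| / 2 ≤ |(w - k * θ).im|) : BQ (Am θ) (Bm M w) := by
  have h1 := slice_FG_im θ R M w hx hθ hθ' hR hM hw
  have hcn : cos (-θ) = cos θ := Complex.cos_neg θ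
  have h2 := slice_FG_im (-θ) (-R) M w (by rwa [hcn]) (by simpa using hθ) (by rwa [hcn])
    (by rw [hcn, neg_sq]; exact hR) (by rw [Complex.sin_neg]; linear_combination -hM)
    (by
      intro k
      have e : w + (k : ℂ) * -θ = w - k * θ := by ring
      rw [e, Complex.neg_im, abs_neg]
      exact hw' k)
  rw [hcn] at h2
  have e3 : 2 * M * cos (w + -θ) = (2 * cos θ) * (2 * M * cos w) - 2 * M * cos (w + θ) := by
    rw [Complex.cos_add, Complex.cos_add, Complex.cos_neg, Complex.sin_neg]; ring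
  rw [e3] at h2
  have hnb : ∀ t : ℂ, (‖t‖ ≤ 2 → 0 < |t.im|) → ¬ Bad t := by
    intro t ht hb
    have := ht (bad_norm hb)
    rw [hb.1, abs_zero] at this
    exact lt_irrefl _ this
  apply BQ_of_finite (Am θ) (Bm M w) _ _ _ (tr_Am θ) (tr_Bm M w) (tr_AmBm θ M w) hθ'
  · -- y is not bad
    apply hnb
    intro hy
    have h3 : cos (w + (0 : ℕ) * θ) * R = (2 * M * cos w) * sin θ := by
      rw [← hM]; simp; ring
    exact (half_step θ R _ hx hθ hR hy _ h3 (hw 0)).2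
  · exact h1.1
  · exact h2.1
  · intro p
    exact hnb _ (h1.2 p)
  · intro p
    exact hnb _ (h2.2 p)

/-- entries of the matrices along a slice are holomorphic -/
theorem entries_diff (θ M : ℂ) (g : F2) : ∀ i j : Fin 2,
    Differentiable ℂ (fun w : ℂ => (rho (Am θ) (Bm M w) g).1 i j) := by
  induction g using FreeGroup.induction_on with
  | C1 =>
    intro i j
    simp
  | of x =>
    intro i j
    fin_cases x
    · simp
    · have e : ∀ w : ℂ, (rho (Am θ) (Bm M w) (of 1)).1 =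
          !![M * exp (w * I), M ^ 2 - 1; 1, M * exp (-w * I)] := by
        intro w; rw [rho_of1]; rfl
      change Differentiable ℂ (fun w : ℂ => (rho (Am θ) (Bm M w) (of 1)).1 i j)
      simp only [e]
      fin_cases i <;> fin_cases j <;> simp <;> fun_prop
  | inv_of x ih =>
    intro i j
    have e : ∀ w : ℂ, (rho (Am θ) (Bm M w) (of x)⁻¹).1 =
        !![(rho (Am θ) (Bm M w) (of x)).1 1 1, -(rho (Am θ) (Bm M w) (of x)).1 0 1;
          -(rho (Am θ) (Bm M w) (of x)).1 1 0, (rho (Am θ) (Bm M w) (of x)).1 0 0] := by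
      intro w
      rw [map_inv, Matrix.SpecialLinearGroup.coe_inv, Matrix.adjugate_fin_two]
    simp only [e]
    fin_cases i <;> fin_cases j <;> simp <;> first | exact ih _ _ | exact (ih _ _).neg
  | mul x y ihx ihy =>
    intro i j
    have e : ∀ w : ℂ, (rho (Am θ) (Bm M w) (x * y)).1 i j =
        (rho (Am θ) (Bm M w) x).1 i 0 * (rho (Am θ) (Bm M w) y).1 0 j +
        (rho (Am θ) (Bm M w) x).1 i 1 * (rho (Am θ) (Bm M w) y).1 1 j := by
      intro w
      rw [map_mul, Matrix.SpecialLinearGroup.coe_mul, Matrix.mul_apply, Fin.sum_univ_two]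
    simp only [e]
    exact ((ihx i 0).mul (ihy 0 j)).add ((ihx i 1).mul (ihy 1 j))

/-- the trace function of a word along a slice -/
noncomputable def trf (θ M : ℂ) (g : F2) : ℂ → ℂ := fun w => tr (rho (Am θ) (Bm M w) g)

theorem trf_diff (θ M : ℂ) (g : F2) : Differentiable ℂ (trf θ M g) := by
  have : trf θ M g = fun w => (rho (Am θ) (Bm M w) g).1 0 0 + (rho (Am θ) (Bm M w) g).1 1 1 := by
    funext w; rw [trf, tr_eq]
  rw [this]
  exact (entries_diff θ M g 0 0).add (entries_diff θ M g 1 1)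

end Pool.MP_0e28f3_gt
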