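import Mathlib
import Pool.Agent.Work.MP_0e28f3_gt.Slice
set_option autoImplicit false

/-!
The derivative version of the induction along a slice.
-/

namespace Pool.MP_0e28f3_gt

open FreeGroup (of)
open Complex (exp log cos sin I slitPlane)
open Metric

/-- an automorphism given by an involutive substitution -/
noncomputable def mkAut (g h : F2) (h1 : FreeGroup.lift ![g, h] g = of 0)
    (h2 : FreeGroup.lift ![g, h] h = of 1) : F2 ≃* F2 :=
  MonoidHom.toMulEquiv (FreeGroup.lift ![g, h]) (FreeGroup.lift ![g, h])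
    (by
      apply FreeGroup.ext_hom
      intro i
      fin_cases i
      · simp [h1]
      · simp [h2])
    (by
      apply FreeGroup.ext_hom
      intro i
      fin_cases i
      · simp [h1]
      · simp [h2])

theorem mkAut_of0 (g h : F2) (h1 : FreeGroup.lift ![g, h] g = of 0)
    (h2 : FreeGroup.lift ![g, h] h = of 1) : mkAut g h h1 h2 (of 0) = g := by
  simp [mkAut]

theorem mkAut_of1 (g h : F2) (h1 : FreeGroup.lift ![g, h] g = of 0)
    (h2 : FreeGroup.lift ![g, h] h = of 1) : mkAut g h h1 h2 (of 1) = h := by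
  simp [mkAut]

/-- triples of trace functions of bases -/
def InvD (θ M : ℂ) (X Y Z : ℂ → ℂ) : Prop :=
  ∃ φ : F2 ≃* F2, X = trf θ M (φ (of 0)) ∧ Y = trf θ M (φ (of 1)) ∧ Z = trf θ M (φ (of 0 * of 1))

theorem InvD_closed (θ M : ℂ) : InvClosed (InvD θ M) where
  S := by
    rintro X Y Z ⟨φ, rfl, rfl, rfl⟩
    refine ⟨(mkAut (of 1) (of 0) (by simp) (by simp)).trans φ, ?_, ?_, ?_⟩
    · simp only [MulEquiv.trans_apply, mkAut_of0]
    · simp only [MulEquiv.trans_apply, mkAut_of1]
    · simp only [MulEquiv.trans_apply, map_mul, mkAut_of0, mkAut_of1]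
      funext w
      simp only [trf, map_mul]
      exact tr_mul_comm _ _
  T := by
    rintro X Y Z ⟨φ, rfl, rfl, rfl⟩
    refine ⟨(mkAut (of 0)⁻¹ (of 0 * of 1) (by simp) (by simp)).trans φ, ?_, ?_, ?_⟩
    · simp only [MulEquiv.trans_apply, mkAut_of0]
      funext w
      simp only [trf, map_inv]
      exact (tr_inv _).symm
    · simp only [MulEquiv.trans_apply, mkAut_of1]
    · simp only [MulEquiv.trans_apply, map_mul, mkAut_of0, mkAut_of1, map_inv]
      funext w
      simp only [trf, map_mul, map_inv]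
      congr 1
      group
  F := by
    rintro X Y Z ⟨φ, rfl, rfl, rfl⟩
    refine ⟨(mkAut (of 0) (of 1)⁻¹ (by simp) (by simp)).trans φ, ?_, ?_, ?_⟩
    · simp only [MulEquiv.trans_apply, mkAut_of0]
    · simp only [MulEquiv.trans_apply, mkAut_of1]
      funext w
      simp only [trf, map_inv]
      exact (tr_inv _).symm
    · simp only [MulEquiv.trans_apply, map_mul, mkAut_of0, mkAut_of1, map_inv]
      funext w
      simp only [trf, map_mul, map_inv, Pi.sub_apply, Pi.mul_apply]
      exact (tr_mul_inv _ _).symm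

theorem InvD_level {θ R M : ℂ} (hR : R ^ 2 = 1000004 - (2 * cos θ) ^ 2)
    (hM : 2 * M * sin θ = R) {X Y Z : ℂ → ℂ} (h : InvD θ M X Y Z) (w : ℂ) :
    X w ^ 2 + Y w ^ 2 + Z w ^ 2 - X w * Y w * Z w = 1000004 := by
  obtain ⟨φ, rfl, rfl, rfl⟩ := h
  obtain ⟨T, hT1, hT2⟩ := transport _ _ (closure_of_equiv φ)
  have h1 := hT1 (tv (Am θ) (Bm M w))
  rw [← hT2] at h1
  have h2 : level (tv (Am θ) (Bm M w)) = 1000004 := by
    rw [tv_slice]
    simp only [level, Matrix.cons_val_zero, Matrix.cons_val_one, Matrix.cons_val]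
    exact slice_level θ R M w hR hM
  rw [h2] at h1
  simp only [level, tv, Matrix.cons_val_zero, Matrix.cons_val_one, Matrix.cons_val] at h1
  simp only [trf, map_mul]
  exact h1

theorem InvD_prim {θ M : ℂ} {X Y Z : ℂ → ℂ} (h : InvD θ M X Y Z) :
    ∃ g : F2, Prim g ∧ X = trf θ M g := by
  obtain ⟨φ, rfl, _, _⟩ := h
  exact ⟨_, ⟨φ, rfl⟩, rfl⟩

theorem InvD_diff {θ M : ℂ} {X Y Z : ℂ → ℂ} (h : InvD θ M X Y Z) :
    Differentiable ℂ X ∧ Differentiable ℂ Y ∧ Differentiable ℂ Z := by
  obtain ⟨φ, rfl, rfl, rfl⟩ := h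
  exact ⟨trf_diff _ _ _, trf_diff _ _ _, trf_diff _ _ _⟩

theorem nb_diff {X Y Z : ℂ → ℂ} (hX : Differentiable ℂ X) (hY : Differentiable ℂ Y)
    (hZ : Differentiable ℂ Z) (k : ℕ) : Differentiable ℂ (nb X Y Z k) := by
  induction k using Nat.twoStepInduction with
  | zero => exact hY
  | one => exact hZ
  | more k ih1 ih2 =>
    rw [nb_add_two]
    exact (hX.mul ih2).sub ih1

theorem indHyp_der (θ R M w0 : ℂ) (r : ℝ) (hR : R ^ 2 = 1000004 - (2 * cos θ) ^ 2)
    (hM : 2 * M * sin θ = R) (hr : 0 < r)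
    (hav : ∀ g : F2, Prim g → ∀ w ∈ ball w0 r, ¬ Bad (trf θ M g w)) :
    IndHyp (Pi.evalRingHom (fun _ : ℂ => ℂ) w0) (fun f : ℂ → ℂ => ‖deriv f w0‖)
      (InvD θ M) (8 / r) where
  cl := InvD_closed θ M
  h3 := by
    intro X Y Z hi hx hy hz
    exact no_three (InvD_level hR hM hi w0) hx hy hz
  hP := by
    intro X Y Z hi hx hp k hk
    obtain ⟨hX, hY, hZ⟩ := InvD_diff hi
    have hlev := InvD_level hR hM hi
    set P : ℂ → ℂ := X * Y - Z with hPdef
    have hPd : Differentiable ℂ P := (hX.mul hY).sub hZ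
    have hnd : ∀ k, Differentiable ℂ (nb X P Y k) := nb_diff hX hPd hY
    have hshift : ∀ k, nb X P Y (k + 1) = nb X Y Z k := by
      intro k
      rw [← nb_shift]
      congr 1
      rw [hPdef]; ring
    have hmain := P_der (X w0) (deriv X w0) (fun k => nb X P Y k w0)
      (fun k => deriv (nb X P Y k) w0)
      (by intro k; simp only [nb_add_two, Pi.sub_apply, Pi.mul_apply])
      (by
        intro k
        simp only [nb_add_two]
        have h1 := (((hX w0).hasDerivAt.mul ((hnd (k + 1)) w0).hasDerivAt).sub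
          ((hnd k) w0).hasDerivAt).deriv
        exact h1)
      (by
        have := hlev w0
        simp only [nb_zero, nb_one, hPdef, Pi.sub_apply, Pi.mul_apply]
        linear_combination this)
      (by
        simp only [nb_zero, nb_one]
        have h1 : HasDerivAt (fun w => X w ^ 2 + P w ^ 2 + Y w ^ 2 - X w * P w * Y w) 0 w0 := by
          have : (fun w => X w ^ 2 + P w ^ 2 + Y w ^ 2 - X w * P w * Y w) =
              fun _ => (1000004 : ℂ) := by
            funext w
            have := hlev w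
            simp only [hPdef, Pi.sub_apply, Pi.mul_apply]
            linear_combination this
          rw [this]
          exact hasDerivAt_const _ _
        have hx' := (hX w0).hasDerivAt
        have hp' := (hPd w0).hasDerivAt
        have hy' := (hY w0).hasDerivAt
        have h2 := (((hx'.fun_pow 2).add (hp'.fun_pow 2)).add (hy'.fun_pow 2)).sub
          ((hx'.mul hp').mul hy')
        have h3 := h2.unique h1
        simp only [Nat.cast_ofNat, Nat.add_one_sub_one, pow_one, Pi.mul_apply] at h3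
        linear_combination h3)
      (k + 1) hx hp (by
        change ‖nb X P Y (k + 1 + 1) w0‖ ≤ 2
        rw [hshift (k + 1)]
        exact hk)
    simp only [nb_zero] at hmain
    rw [hshift (k + 1)] at hmain
    exact hmain
  hfin := by
    intro X Y Z hi hx _
    have h1 := fin_nb (X w0) (Y w0) (Z w0) (InvD_level hR hM hi w0) hx (by
      obtain ⟨g, hg, rfl⟩ := InvD_prim hi
      exact hav g hg w0 (mem_ball_self hr))
    have e : ∀ k : ℕ, Pi.evalRingHom (fun _ : ℂ => ℂ) w0 (nb X Y Z k) =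
        nb (X w0) (Y w0) (Z w0) k := by
      intro k
      rw [nb_map]; rfl
    simp only [e]
    exact h1
  hbd := by
    intro X Y Z hi hx
    obtain ⟨g, hg, rfl⟩ := InvD_prim hi
    exact bloch _ w0 r hr (trf_diff θ M g) (hav g hg) hx

/-- one side of the fan at the root, derivative version -/
theorem root_der (θ R M w0 : ℂ) (r : ℝ) (hx : ‖2 * cos θ‖ ≤ 2)
    (hR : R ^ 2 = 1000004 - (2 * cos θ) ^ 2)
    (hM : 2 * M * sin θ = R) (hr : 0 < r)
    (hav : ∀ g : F2, Prim g → ∀ w ∈ ball w0 r, ¬ Bad (trf θ M g w))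
    (Z : ℂ → ℂ) (ε : ℂ) (hε : ε = 1 ∨ ε = -1) (hZ : Z = fun w => 2 * M * cos (w + ε * θ))
    (hi : InvD θ M (fun _ => 2 * cos θ) (fun w => 2 * M * cos w) Z) :
    {p : List Bool | ‖fwd p (2 * cos θ) (2 * M * cos w0) (2 * M * cos (w0 + ε * θ))‖ ≤ 2}.Finite := by
  have H := indHyp_der θ R M w0 r hR hM hr hav
  have hcε : cos (ε * θ) = cos θ := by
    rcases hε with rfl | rfl
    · rw [one_mul]
    · rw [neg_one_mul, Complex.cos_neg]
  have hnb : ∀ k : ℕ, nb (fun _ : ℂ => 2 * cos θ) (fun w => 2 * M * cos w) Z k =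
      fun w => 2 * M * cos (w + k * (ε * θ)) := by
    intro k
    funext w
    have h1 := nb_map (Pi.evalRingHom (fun _ : ℂ => ℂ) w) k (fun _ : ℂ => 2 * cos θ)
      (fun w => 2 * M * cos w) Z
    simp only [Pi.evalRingHom_apply] at h1
    rw [h1, hZ]
    simp only
    have h2 := nb_cos (ε * θ) M w k
    rw [hcε] at h2
    exact h2
  have h := root_fin H hi (by simpa using hx) (by
      have h1 := fin_nb (2 * cos θ) (2 * M * cos w0) (Z w0) (InvD_level hR hM hi w0) hx (by
        obtain ⟨g, hg, he⟩ := InvD_prim hi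
        have := hav g hg w0 (mem_ball_self hr)
        rw [← he] at this
        exact this)
      have e : ∀ k : ℕ, Pi.evalRingHom (fun _ : ℂ => ℂ) w0
          (nb (fun _ : ℂ => 2 * cos θ) (fun w => 2 * M * cos w) Z k) =
          nb (2 * cos θ) (2 * M * cos w0) (Z w0) k := by
        intro k
        rw [nb_map]; rfl
      simp only [e]
      exact h1) (by
      intro k hk
      rw [hnb k] at hk ⊢
      simp only [Pi.evalRingHom_apply] at hk
      have hd1 : deriv (fun _ : ℂ => 2 * cos θ) w0 = 0 := by simp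
      have hd2 : deriv (fun w => 2 * M * cos (w + k * (ε * θ))) w0 =
          -(2 * M * sin (w0 + k * (ε * θ))) := by
        have h1 : HasDerivAt (fun w : ℂ => w + k * (ε * θ)) 1 w0 := (hasDerivAt_id w0).add_const _
        have h2 := (h1.ccos).const_mul (2 * M)
        rw [h2.deriv]; ring
      rw [hd1, hd2, norm_zero]
      have hne : 0 < ‖-(2 * M * sin (w0 + k * (ε * θ)))‖ := by
        rw [norm_pos_iff]
        intro h0
        have h1 : 2 * M * sin (w0 + k * (ε * θ)) = 0 := by linear_combination -h0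
        set ψ := w0 + k * (ε * θ) with hψ
        have h2 := Complex.sin_sq_add_cos_sq ψ
        have h3 : (2 * M * cos ψ) ^ 2 = (2 * M) ^ 2 := by
          have : (2 * M * sin ψ) ^ 2 = 0 := by rw [h1]; ring
          linear_combination (2 * M) ^ 2 * h2 - this
        have h4 := congrArg norm h3
        rw [norm_pow, norm_pow] at h4
        have h5 : ‖2 * M‖ ^ 2 ≤ 2 ^ 2 := by
          rw [← h4]; gcongr
        have h6 : ‖2 * M‖ ≤ 2 := le_of_sq_le (norm_nonneg _) (by norm_num) h5
        have h7 := R_norm hx hR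
        rw [← hM, norm_mul] at h7
        have h8 : ‖sin θ‖ ^ 2 ≤ 2 := (angle_bounds θ hx).2.2.2.2.2
        have h9 : ‖sin θ‖ ≤ 2 := le_of_sq_le (norm_nonneg _) (by norm_num) (by linarith)
        have h10 : ‖2 * M‖ * ‖sin θ‖ ≤ 2 * 2 := by gcongr
        linarith
      exact ⟨hne.le, hne⟩)
  have h1 := h.1
  have e : ∀ p : List Bool, Pi.evalRingHom (fun _ : ℂ => ℂ) w0
      (fwd p (fun _ : ℂ => 2 * cos θ) (fun w => 2 * M * cos w) Z) =
      fwd p (2 * cos θ) (2 * M * cos w0) (2 * M * cos (w0 + ε * θ)) := by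
    intro p
    rw [fwd_map, hZ]; rfl
  simp only [e] at h1
  exact h1

end Pool.MP_0e28f3_gt
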