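import Mathlib
import Pool.Agent.Work.MP_0e28f3_gt.SliceDer
set_option autoImplicit false

/-!
Density of the Bowditch set in the level set `κ = 1000002`.
-/

namespace Pool.MP_0e28f3_gt

open FreeGroup (of)
open Complex (exp log cos sin I slitPlane)
open Metric Filter Topology

theorem pull (φ : F2 ≃* F2) (T : (Fin 3 → ℂ) ≃ₜ (Fin 3 → ℂ))
    (hT : ∀ A B, tv (rho A B (φ (of 0))) (rho A B (φ (of 1))) = T (tv A B)) (A' B' : SL2C) :
    ∃ A B, rho A B (φ (of 0)) = A' ∧ rho A B (φ (of 1)) = B' ∧ tv A B = T.symm (tv A' B') ∧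
      ∀ g, rho A B (φ g) = rho A' B' g := by
  set A := rho A' B' (φ.symm (of 0)) with hA
  set B := rho A' B' (φ.symm (of 1)) with hB
  have hcomp : rho A B = (rho A' B').comp φ.symm.toMonoidHom := by
    apply FreeGroup.ext_hom
    intro i
    fin_cases i
    · simp [hA]
    · simp [hB]
  have hg : ∀ g, rho A B (φ g) = rho A' B' g := by
    intro g; rw [hcomp]; simp
  have h0 : rho A B (φ (of 0)) = A' := by rw [hg]; simp
  have h1 : rho A B (φ (of 1)) = B' := by rw [hg]; simp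
  refine ⟨A, B, h0, h1, ?_, hg⟩
  have := hT A B
  rw [h0, h1] at this
  rw [this]; simp

/-- a matrix of determinant one -/
def mkSL (M : Matrix (Fin 2) (Fin 2) ℂ) (h : M.det = 1) : SL2C := ⟨M, h⟩

theorem mkSL_val (M : Matrix (Fin 2) (Fin 2) ℂ) (h : M.det = 1) : (mkSL M h).1 = M := rfl

/-- every triple is the triple of traces of a pair -/
theorem exists_pair (v : Fin 3 → ℂ) : ∃ A B : SL2C, tv A B = v := by
  obtain ⟨θ, hθ⟩ := exists_theta (v 2)
  set t := exp (θ * I) with ht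
  have ht0 : t ≠ 0 := Complex.exp_ne_zero _
  have hti : t⁻¹ = exp (-θ * I) := by rw [ht, ← Complex.exp_neg]; congr 1; ring
  have hsum : t⁻¹ + t = v 2 := by
    rw [hti, ht, ← hθ, Complex.cos]; ring
  have dA : (!![v 0, -1; 1, 0] : Matrix (Fin 2) (Fin 2) ℂ).det = 1 := by
    rw [Matrix.det_fin_two_of]; ring
  have dB : (!![0, t; -t⁻¹, v 1] : Matrix (Fin 2) (Fin 2) ℂ).det = 1 := by
    rw [Matrix.det_fin_two_of]; field_simp; ring
  have hA : tr (mkSL _ dA) = v 0 := by rw [tr_eq, mkSL_val]; simp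
  have hB : tr (mkSL _ dB) = v 1 := by rw [tr_eq, mkSL_val]; simp
  have hAB : tr (mkSL _ dA * mkSL _ dB) = v 2 := by
    rw [tr_eq, Matrix.SpecialLinearGroup.coe_mul]
    simp only [Matrix.mul_apply, Fin.sum_univ_two]
    rw [mkSL_val, mkSL_val, ← hsum]
    simp
  refine ⟨mkSL _ dA, mkSL _ dB, ?_⟩
  rw [tv, hA, hB, hAB]
  ext i
  fin_cases i <;> rfl

/-- slices through a point -/
theorem exists_slice (v : Fin 3 → ℂ) (θ R M : ℂ) (hlev : level v = 1000004)
    (hθ : 2 * cos θ = v 0) (hs : sin θ ≠ 0) (hR : R ^ 2 = 1000004 - (v 0) ^ 2) (hR0 : R ≠ 0)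
    (hM : 2 * M * sin θ = R) : ∃ w : ℂ, tv (Am θ) (Bm M w) = v := by
  obtain ⟨φ, -, h2, -⟩ := param (v 0) (v 1) (v 2) θ R 1000004 (by
    simp only [level] at hlev; linear_combination hlev) hθ hR hR0
  refine ⟨φ, ?_⟩
  rw [tv_slice]
  have h3 := h2 0
  have h4 := h2 1
  simp only [Nat.cast_zero, zero_mul, add_zero, nb_zero, Nat.cast_one, one_mul, nb_one] at h3 h4
  ext i
  fin_cases i
  · simpa using hθ
  · apply mul_right_cancel₀ hs
    change 2 * M * cos φ * sin θ = v 1 * sin θ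
    rw [← h3, ← hM]; ring
  · apply mul_right_cancel₀ hs
    change 2 * M * cos (φ + θ) * sin θ = v 2 * sin θ
    rw [← h4, ← hM]; ring

theorem half_int (m : ℤ) : (1 : ℝ) / 2 ≤ |(m : ℝ) + 1 / 2| := by
  rcases le_or_gt 0 m with h | h
  · have : (0 : ℝ) ≤ m := by exact_mod_cast h
    rw [abs_of_nonneg (by linarith)]; linarith
  · have : (m : ℝ) ≤ -1 := by exact_mod_cast (by omega : m ≤ -1)
    rw [abs_of_nonpos (by linarith)]; linarith

theorem slit_of_small (x : ℂ) (hx : ‖x‖ ≤ 2) : 1000004 - x ^ 2 ∈ slitPlane := by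
  rw [Complex.mem_slitPlane_iff]
  left
  have h1 : (x ^ 2).re ≤ 4 := by
    refine (Complex.re_le_norm _).trans ?_
    rw [norm_pow]
    have : ‖x‖ ^ 2 ≤ 2 ^ 2 := by gcongr
    linarith
  rw [Complex.sub_re]
  norm_num
  linarith

theorem caseA_strict (U : Set (Fin 3 → ℂ)) (hU : IsOpen U) (q : Fin 3 → ℂ) (hq : q ∈ U)
    (hlev : level q = 1000004) (x : ℝ) (hqx : q 0 = x) (hx : |x| < 2) :
    ∃ A B : SL2C, tv A B ∈ U ∧ level (tv A B) = 1000004 ∧ BQ A B := by
  set t := Real.arccos (x / 2) with ht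
  have habs := abs_lt.mp hx
  have hcos : Real.cos t = x / 2 := Real.cos_arccos (by linarith) (by linarith)
  have hsin : 0 < Real.sin t := by
    rw [ht, Real.sin_arccos]
    apply Real.sqrt_pos.mpr
    nlinarith
  have hcosC : 2 * cos (t : ℂ) = q 0 := by
    rw [hqx, ← Complex.ofReal_cos, hcos]; push_cast; ring
  have hsinC : sin (t : ℂ) ≠ 0 := by
    rw [← Complex.ofReal_sin]; exact_mod_cast hsin.ne'
  have hnorm0 : ‖2 * cos (t : ℂ)‖ < 2 := by
    rw [hcosC, hqx, Complex.norm_real]; exact hx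
  -- functions of θ
  set Rf : ℂ → ℂ := fun θ => sq (1000004 - (2 * cos θ) ^ 2) with hRf
  set Mf : ℂ → ℂ := fun θ => Rf θ / (2 * sin θ) with hMf
  have hslit0 : (1000004 : ℂ) - (2 * cos (t : ℂ)) ^ 2 ∈ slitPlane := slit_of_small _ hnorm0.le
  have hRcont : ContinuousAt Rf t := by
    have h1 : ContinuousAt sq ((fun θ : ℂ => (1000004 : ℂ) - (2 * cos θ) ^ 2) (t : ℂ)) :=
      continuousAt_sq hslit0
    have h2 : ContinuousAt (fun θ : ℂ => (1000004 : ℂ) - (2 * cos θ) ^ 2) (t : ℂ) := by fun_prop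
    exact ContinuousAt.comp (g := sq) (f := fun θ : ℂ => (1000004 : ℂ) - (2 * cos θ) ^ 2) h1 h2
  have hMcont : ContinuousAt Mf t := by
    apply hRcont.div
    · fun_prop
    · exact mul_ne_zero two_ne_zero hsinC
  have hRsq : ∀ θ : ℂ, ‖2 * cos θ‖ ≤ 2 → Rf θ ^ 2 = 1000004 - (2 * cos θ) ^ 2 := by
    intro θ hθ
    exact sq_sq (Complex.slitPlane_ne_zero (slit_of_small _ hθ))
  have hMs : ∀ θ : ℂ, sin θ ≠ 0 → 2 * Mf θ * sin θ = Rf θ := by
    intro θ hθ
    rw [hMf]; field_simp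
  -- the base point
  have hR0 : Rf t ^ 2 = 1000004 - (q 0) ^ 2 := by rw [← hcosC]; exact hRsq _ hnorm0.le
  obtain ⟨w0, hw0⟩ := exists_slice q t (Rf t) (Mf t) hlev hcosC hsinC hR0
    (R_ne_zero (by rw [← hcosC]; exact hnorm0.le) hR0) (hMs _ hsinC)
  -- the perturbation
  set θf : ℝ → ℂ := fun ε => (t : ℂ) + (ε : ℂ) * I with hθf
  set wf : ℝ → ℂ := fun ε => (w0.re : ℂ) + (((⌊w0.im / ε⌋ : ℝ) + 1 / 2) * ε : ℝ) * I with hwf
  have hθt : Tendsto θf (𝓝[>] 0) (𝓝 (t : ℂ)) := by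
    have h1 : Continuous θf := by fun_prop
    have h2 := (h1.tendsto 0).mono_left (nhdsWithin_le_nhds (s := Set.Ioi 0))
    simpa [hθf] using h2
  have hwt : Tendsto wf (𝓝[>] 0) (𝓝 w0) := by
    have hreal : Tendsto (fun ε : ℝ => ((⌊w0.im / ε⌋ : ℝ) + 1 / 2) * ε) (𝓝[>] 0) (𝓝 w0.im) := by
      have hb : ∀ᶠ ε : ℝ in 𝓝[>] 0, |((⌊w0.im / ε⌋ : ℝ) + 1 / 2) * ε - w0.im| ≤ ε := by
        filter_upwards [self_mem_nhdsWithin] with ε hε
        have hε' : 0 < ε := hε
        have h1 := Int.floor_le (w0.im / ε)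
        have h2 := Int.lt_floor_add_one (w0.im / ε)
        rw [le_div_iff₀ hε'] at h1
        rw [div_lt_iff₀ hε'] at h2
        rw [abs_le]
        constructor <;> nlinarith
      rw [tendsto_iff_norm_sub_tendsto_zero]
      refine squeeze_zero' (Eventually.of_forall fun ε => norm_nonneg _) hb ?_
      exact tendsto_id.mono_left nhdsWithin_le_nhds
    have h1 : Tendsto wf (𝓝[>] 0) (𝓝 ((w0.re : ℂ) + (w0.im : ℂ) * I)) := by
      rw [hwf]
      refine tendsto_const_nhds.add (Tendsto.mul ?_ tendsto_const_nhds)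
      exact (Complex.continuous_ofReal.tendsto _).comp hreal
    rwa [Complex.re_add_im] at h1
  have hMt : Tendsto (fun ε => Mf (θf ε)) (𝓝[>] 0) (𝓝 (Mf t)) := hMcont.tendsto.comp hθt
  have hvt : Tendsto (fun ε => tv (Am (θf ε)) (Bm (Mf (θf ε)) (wf ε))) (𝓝[>] 0) (𝓝 q) := by
    rw [← hw0]
    simp only [tv_slice]
    have hcosc : Continuous (fun z : ℂ => cos z) := Complex.continuous_cos
    rw [tendsto_pi_nhds]
    intro i
    fin_cases i
    · simp
      exact ((hcosc.tendsto _).comp hθt).const_mul 2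
    · simp
      exact (hMt.const_mul 2).mul ((hcosc.tendsto _).comp hwt)
    · simp
      exact (hMt.const_mul 2).mul ((hcosc.tendsto _).comp (hwt.add hθt))
  have e1 : ∀ᶠ ε in 𝓝[>] (0 : ℝ), tv (Am (θf ε)) (Bm (Mf (θf ε)) (wf ε)) ∈ U :=
    hvt.eventually (hU.mem_nhds hq)
  have e2 : ∀ᶠ ε in 𝓝[>] (0 : ℝ), ‖2 * cos (θf ε)‖ < 2 := by
    have h1 : Continuous (fun z : ℂ => ‖2 * cos z‖) := by fun_prop
    exact ((h1.tendsto _).comp hθt).eventually (gt_mem_nhds hnorm0)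
  have e3 : ∀ᶠ ε in 𝓝[>] (0 : ℝ), sin (θf ε) ≠ 0 := by
    have h1 : Continuous (fun z : ℂ => sin z) := Complex.continuous_sin
    exact ((h1.tendsto _).comp hθt).eventually (isOpen_ne.mem_nhds hsinC)
  have e4 : ∀ᶠ ε in 𝓝[>] (0 : ℝ), 0 < ε := self_mem_nhdsWithin
  obtain ⟨ε, h1, h2, h3, h4⟩ := (e1.and (e2.and (e3.and e4))).exists
  refine ⟨_, _, h1, ?_, ?_⟩
  · rw [tv_slice]
    simp only [level, Matrix.cons_val_zero, Matrix.cons_val_one, Matrix.cons_val]
    exact slice_level _ _ _ _ (hRsq _ h2.le) (hMs _ h3)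
  · have him : (θf ε).im = ε := by simp [hθf]
    have hwim : (wf ε).im = ((⌊w0.im / ε⌋ : ℝ) + 1 / 2) * ε := by
      simp [hwf]
    apply slice_BQ (θf ε) (Rf (θf ε)) (Mf (θf ε)) (wf ε) h2.le (by rw [him]; exact h4.ne') ?_
      (hRsq _ h2.le) (hMs _ h3)
    · intro k
      have : (wf ε + k * θf ε).im = (((⌊w0.im / ε⌋ + k : ℤ) : ℝ) + 1 / 2) * ε := by
        rw [Complex.add_im, hwim, Complex.mul_im, him]
        simp
        ring
      rw [this, him, abs_mul, abs_of_pos h4]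
      have := half_int (⌊w0.im / ε⌋ + k)
      nlinarith
    · intro k
      have : (wf ε - k * θf ε).im = (((⌊w0.im / ε⌋ - k : ℤ) : ℝ) + 1 / 2) * ε := by
        rw [Complex.sub_im, hwim, Complex.mul_im, him]
        simp
        ring
      rw [this, him, abs_mul, abs_of_pos h4]
      have := half_int (⌊w0.im / ε⌋ - k)
      nlinarith
    · -- not bad
      rintro ⟨hb, -⟩
      have h5 : (2 * cos (θf ε)).im = -2 * (Real.sin t * Real.sinh ε) := by
        have : (2 * cos (θf ε)).im = 2 * (cos (θf ε)).im := by simp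
        rw [this, im_cos', him]
        have hre : (θf ε).re = t := by simp [hθf]
        rw [hre]; ring
      rw [h5] at hb
      have h6 : 0 < Real.sinh ε := Real.sinh_pos_iff.mpr h4
      have h7 : 0 < Real.sin t * Real.sinh ε := mul_pos hsin h6
      linarith

/-- Case A: the first trace is in the interval `[-2, 2]`. -/
theorem caseA (U : Set (Fin 3 → ℂ)) (hU : IsOpen U) (q : Fin 3 → ℂ) (hq : q ∈ U)
    (hlev : level q = 1000004) (hbad : Bad (q 0)) :
    ∃ A B : SL2C, tv A B ∈ U ∧ level (tv A B) = 1000004 ∧ BQ A B := by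
  obtain ⟨him, hre⟩ := hbad
  have hqx : q 0 = ((q 0).re : ℂ) := by
    apply Complex.ext
    · simp
    · simp [him]
  rcases hre.lt_or_eq with hlt | heq
  · exact caseA_strict U hU q hq hlev _ hqx hlt
  -- the trace is ±2
  set s := (q 0).re with hs
  have hs2 : s ^ 2 = 4 := by rw [← sq_abs, heq]; norm_num
  set c0 : ℂ := sq 4000000 with hc0
  have hslit : (4000000 : ℂ) ∈ slitPlane := by
    rw [Complex.mem_slitPlane_iff]; left; norm_num
  have hc0sq : c0 ^ 2 = 4000000 := sq_sq (by norm_num)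
  have hlev' : q 0 ^ 2 + q 1 ^ 2 + q 2 ^ 2 - q 0 * q 1 * q 2 = 1000004 := hlev
  have hs2' : q 0 ^ 2 = 4 := by
    rw [hqx]
    exact_mod_cast hs2
  have hdisc : (2 * q 2 - q 0 * q 1) ^ 2 = c0 ^ 2 := by
    rw [hc0sq]
    linear_combination 4 * hlev' + (q 1 ^ 2 - 4) * hs2'
  obtain ⟨η, hη2, hη⟩ : ∃ η : ℂ, η ^ 2 = 1 ∧ 2 * q 2 - q 0 * q 1 = η * c0 := by
    rcases sq_eq_sq_iff_eq_or_eq_neg.mp hdisc with h | h
    · exact ⟨1, by norm_num, by rw [h]; ring⟩
    · exact ⟨-1, by norm_num, by rw [h]; ring⟩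
  -- perturbation
  set xf : ℝ → ℂ := fun ε => ((s * (1 - ε) : ℝ) : ℂ) with hxf
  set Df : ℝ → ℂ := fun ε => ((xf ε) ^ 2 - 4) * (q 1 ^ 2 - 4) + 4000000 with hDf
  set vf : ℝ → (Fin 3 → ℂ) := fun ε => ![xf ε, q 1, (xf ε * q 1 + η * sq (Df ε)) / 2] with hvf
  have hx0 : xf 0 = q 0 := by
    rw [hxf, hqx]; simp
  have hD0 : Df 0 = 4000000 := by
    simp only [hDf]
    rw [hx0, hs2']; ring
  have hxc : Continuous xf := by fun_prop
  have hDc : Continuous Df := by fun_prop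
  have hv0 : vf 0 = q := by
    rw [hvf]
    simp only
    rw [hx0, hD0, ← hc0, ← hη]
    ext i
    fin_cases i
    · rfl
    · rfl
    · change (q 0 * q 1 + (2 * q 2 - q 0 * q 1)) / 2 = q 2
      ring
  have hsqc : ContinuousAt (fun ε => sq (Df ε)) 0 := by
    have h1 : ContinuousAt sq (Df 0) := by rw [hD0]; exact continuousAt_sq hslit
    exact ContinuousAt.comp (g := sq) (f := Df) h1 hDc.continuousAt
  have hvc : ContinuousAt vf 0 := by
    rw [hvf]
    rw [continuousAt_pi]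
    intro i
    fin_cases i
    · simpa using hxc.continuousAt
    · simpa using continuousAt_const
    · simp
      exact ((hxc.continuousAt.mul continuousAt_const).add (continuousAt_const.mul hsqc)).div_const 2
  have hnear : ∀ᶠ ε in 𝓝[>] (0 : ℝ), vf ε ∈ U := by
    have h1 : Tendsto vf (𝓝 0) (𝓝 q) := by
      have := hvc.tendsto
      rwa [hv0] at this
    exact (h1.mono_left nhdsWithin_le_nhds).eventually (hU.mem_nhds hq)
  have hDne : ∀ᶠ ε in 𝓝[>] (0 : ℝ), Df ε ≠ 0 := by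
    have h1 : Tendsto Df (𝓝 0) (𝓝 4000000) := by
      have := hDc.tendsto 0
      rwa [hD0] at this
    exact (h1.mono_left nhdsWithin_le_nhds).eventually (isOpen_ne.mem_nhds (by norm_num))
  have hpos : ∀ᶠ ε in 𝓝[>] (0 : ℝ), 0 < ε := self_mem_nhdsWithin
  have hlt1 : ∀ᶠ ε in 𝓝[>] (0 : ℝ), ε < 1 :=
    (gt_mem_nhds (zero_lt_one)).filter_mono nhdsWithin_le_nhds
  obtain ⟨ε, h1, h2, h3, h4⟩ := (hnear.and (hDne.and (hpos.and hlt1))).exists
  apply caseA_strict U hU (vf ε) h1 ?_ (s * (1 - ε)) ?_ ?_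
  · have h5 := sq_sq h2
    simp only [hvf, level, Matrix.cons_val_zero, Matrix.cons_val_one, Matrix.cons_val]
    have h6 : sq (Df ε) ^ 2 = ((xf ε) ^ 2 - 4) * (q 1 ^ 2 - 4) + 4000000 := h5
    linear_combination (1 / 4 * η ^ 2) * h6 + (((xf ε) ^ 2 - 4) * (q 1 ^ 2 - 4) + 4000000) / 4 * hη2
  · simp [hvf, hxf]
  · rw [abs_mul, heq, abs_of_pos (by linarith)]
    linarith

/-- Case B: no primitive trace in `[-2, 2]` near the point. -/
theorem caseB (U : Set (Fin 3 → ℂ)) (hU : IsOpen U) (v : Fin 3 → ℂ) (hv : v ∈ U)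
    (hlev : level v = 1000004)
    (hno : ∀ A B : SL2C, tv A B ∈ U → level (tv A B) = 1000004 → ∀ g : F2, Prim g →
      ¬ Bad (tr (rho A B g))) :
    ∃ A B : SL2C, tv A B ∈ U ∧ level (tv A B) = 1000004 ∧ BQ A B := by
  obtain ⟨A, B, hAB⟩ := exists_pair v
  by_cases hsmall : ∃ g : F2, Prim g ∧ ‖tr (rho A B g)‖ ≤ 2
  swap
  · push Not at hsmall
    refine ⟨A, B, by rwa [hAB], by rwa [hAB], hno A B (by rwa [hAB]) (by rwa [hAB]), ∅, ?_⟩
    intro w hw hn
    exact absurd hn (not_le.mpr (hsmall w hw))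
  obtain ⟨_, ⟨φ, rfl⟩, hφ⟩ := hsmall
  obtain ⟨T, hT1, hT2⟩ := transport _ _ (closure_of_equiv φ)
  set v' := T v with hv'
  have hv'0 : v' 0 = tr (rho A B (φ (of 0))) := by
    have := hT2 A B
    rw [hAB] at this
    rw [hv', ← this]; rfl
  have hlev' : level v' = 1000004 := by rw [hv', hT1]; exact hlev
  have hbad0 : ¬ Bad (v' 0) := by
    rw [hv'0]
    exact hno A B (by rwa [hAB]) (by rwa [hAB]) _ ⟨φ, rfl⟩
  have hx2 : ‖v' 0‖ ≤ 2 := by rw [hv'0]; exact hφ
  obtain ⟨θ, hθ⟩ := exists_theta (v' 0)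
  have hs : sin θ ≠ 0 := by
    intro h0
    have h1 := Complex.sin_sq_add_cos_sq θ
    rw [h0] at h1
    have h2 : cos θ ^ 2 = 1 := by linear_combination h1
    apply hbad0
    rw [← hθ]
    rcases sq_eq_sq_iff_eq_or_eq_neg.mp (show cos θ ^ 2 = 1 ^ 2 by rw [h2]; norm_num) with h | h
    · rw [h]; constructor <;> norm_num
    · rw [h]; constructor <;> norm_num
  obtain ⟨R, hR⟩ := exists_sqrt (1000004 - (v' 0) ^ 2)
  have hR0 := R_ne_zero hx2 hR
  set M := R / (2 * sin θ) with hMdef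
  have hM : 2 * M * sin θ = R := by rw [hMdef]; field_simp
  obtain ⟨w0, hw0⟩ := exists_slice v' θ R M hlev' hθ hs hR hR0 hM
  have hR' : R ^ 2 = 1000004 - (2 * cos θ) ^ 2 := by rw [hθ]; exact hR
  have hx2' : ‖2 * cos θ‖ ≤ 2 := by rw [hθ]; exact hx2
  -- the ball
  have hcont : Continuous (fun w : ℂ => T.symm (tv (Am θ) (Bm M w))) := by
    apply T.symm.continuous.comp
    simp only [tv_slice]
    apply continuous_pi
    intro i
    fin_cases i <;> simp <;> fun_prop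
  have hmem : (fun w : ℂ => T.symm (tv (Am θ) (Bm M w))) w0 ∈ U := by
    simp only
    rw [hw0, hv']; simpa using hv
  obtain ⟨r, hr, hball⟩ := Metric.isOpen_iff.mp (hU.preimage hcont) w0 hmem
  have hlevs : ∀ w : ℂ, level (tv (Am θ) (Bm M w)) = 1000004 := by
    intro w
    rw [tv_slice]
    simp only [level, Matrix.cons_val_zero, Matrix.cons_val_one, Matrix.cons_val]
    exact slice_level θ R M w hR' hM
  have hlevsymm : ∀ u, level (T.symm u) = level u := by
    intro u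
    have := hT1 (T.symm u)
    rw [Homeomorph.apply_symm_apply] at this
    exact this.symm
  have hav : ∀ g : F2, Prim g → ∀ w ∈ ball w0 r, ¬ Bad (trf θ M g w) := by
    intro g hg w hw
    obtain ⟨A1, B1, hA1, hB1, htv, hall⟩ := pull φ T hT2 (Am θ) (Bm M w)
    have h1 : tv A1 B1 ∈ U := by rw [htv]; exact hball hw
    have h2 : level (tv A1 B1) = 1000004 := by rw [htv, hlevsymm]; exact hlevs w
    have h3 : Prim (φ g) := by
      obtain ⟨ψ, rfl⟩ := hg
      exact ⟨ψ.trans φ, rfl⟩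
    have h4 := hno A1 B1 h1 h2 _ h3
    rw [hall] at h4
    exact h4
  -- invariants at the root
  have hi1 : InvD θ M (fun _ => 2 * cos θ) (fun w => 2 * M * cos w)
      (fun w => 2 * M * cos (w + 1 * θ)) := by
    refine ⟨MulEquiv.refl _, ?_, ?_, ?_⟩
    · funext w; simp [trf, tr_Am]
    · funext w; simp [trf, tr_Bm]
    · funext w; simp [trf, tr_AmBm]
  have hi2 : InvD θ M (fun _ => 2 * cos θ) (fun w => 2 * M * cos w)
      (fun w => 2 * M * cos (w + -1 * θ)) := by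
    have := (InvD_closed θ M).F _ _ _ hi1
    convert this using 1
    funext w
    simp only [Pi.sub_apply, Pi.mul_apply]
    rw [one_mul, neg_one_mul, Complex.cos_add, Complex.cos_add, Complex.cos_neg, Complex.sin_neg]
    ring
  have f1 := root_der θ R M w0 r hx2' hR' hM hr hav _ 1 (Or.inl rfl) rfl hi1
  have f2 := root_der θ R M w0 r hx2' hR' hM hr hav _ (-1) (Or.inr rfl) rfl hi2
  have e1 : 2 * M * cos (w0 + 1 * θ) = 2 * M * cos (w0 + θ) := by rw [one_mul]
  have e2 : 2 * M * cos (w0 + -1 * θ) =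
      (2 * cos θ) * (2 * M * cos w0) - 2 * M * cos (w0 + θ) := by
    rw [neg_one_mul, Complex.cos_add, Complex.cos_add, Complex.cos_neg, Complex.sin_neg]
    ring
  rw [e1] at f1
  rw [e2] at f2
  have hBQ' : BQ (Am θ) (Bm M w0) := by
    refine ⟨fun g hg => hav g hg w0 (mem_ball_self hr), ?_⟩
    exact BQ2_of_finite (Am θ) (Bm M w0) _ _ _ (tr_Am θ) (tr_Bm M w0) (tr_AmBm θ M w0) f1 f2
  obtain ⟨A1, B1, hA1, hB1, htv, hall⟩ := pull φ T hT2 (Am θ) (Bm M w0)
  refine ⟨A1, B1, ?_, ?_, BQ_comp A1 B1 φ _ _ hA1 hB1 hBQ'⟩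
  · rw [htv]; exact hball (mem_ball_self hr)
  · rw [htv, hlevsymm]; exact hlevs w0

/-- Density of the Bowditch set in the level set. -/
theorem dense_BQ (U : Set (Fin 3 → ℂ)) (hU : IsOpen U) (v : Fin 3 → ℂ) (hv : v ∈ U)
    (hlev : level v = 1000004) :
    ∃ A B : SL2C, tv A B ∈ U ∧ level (tv A B) = 1000004 ∧ BQ A B := by
  by_cases h : ∃ A B : SL2C, tv A B ∈ U ∧ level (tv A B) = 1000004 ∧ ∃ g : F2, Prim g ∧
      Bad (tr (rho A B g))
  · obtain ⟨A, B, h1, h2, _, ⟨φ, rfl⟩, h3⟩ := h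
    obtain ⟨T, hT1, hT2⟩ := transport _ _ (closure_of_equiv φ)
    have hlevsymm : ∀ u, level (T.symm u) = level u := by
      intro u
      have := hT1 (T.symm u)
      rw [Homeomorph.apply_symm_apply] at this
      exact this.symm
    obtain ⟨A', B', h4, h5, h6⟩ := caseA (T.symm ⁻¹' U) (hU.preimage T.symm.continuous)
      (T (tv A B)) (by simpa using h1) (by rw [hT1]; exact h2) (by
        rw [← hT2]
        exact h3)
    obtain ⟨A1, B1, hA1, hB1, htv, hall⟩ := pull φ T hT2 A' B'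
    refine ⟨A1, B1, ?_, ?_, BQ_comp A1 B1 φ _ _ hA1 hB1 h6⟩
    · rw [htv]; exact h4
    · rw [htv, hlevsymm]; exact h5
  · push Not at h
    exact caseB U hU v hv hlev (fun A B h1 h2 g hg => h A B h1 h2 g hg)

end Pool.MP_0e28f3_gt
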